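import Pool.Agent.MDS.Char

set_option autoImplicit false

open Complex Filter Topology

namespace Pool.Agent.MDS

theorem sum_period {d : ℕ} [NeZero d] (χ : DirichletCharacter ℂ d) (h : χ ≠ 1) :
    ∑ n ∈ Finset.range d, χ (n : ZMod d) = 0 := by
  have h1 := MulChar.sum_eq_zero_of_ne_one h
  rw [← h1]
  refine Finset.sum_bij' (fun n _ => (n : ZMod d)) (fun a _ => a.val) ?_ ?_ ?_ ?_ ?_
  · intro a _; exact Finset.mem_univ _
  · intro a _; exact Finset.mem_range.mpr (ZMod.val_lt a)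
  · intro a ha; exact ZMod.val_cast_of_lt (Finset.mem_range.mp ha)
  · intro a _; simp
  · intro a _; rfl

theorem norm_partial_sum {d : ℕ} [NeZero d] (χ : DirichletCharacter ℂ d) (h : χ ≠ 1) (N : ℕ) :
    ‖∑ n ∈ Finset.range N, χ (n : ZMod d)‖ ≤ d := by
  induction N using Nat.strong_induction_on with
  | _ N ih =>
    by_cases hN : N < d
    · calc ‖∑ n ∈ Finset.range N, χ (n : ZMod d)‖ ≤ ∑ n ∈ Finset.range N, ‖χ (n : ZMod d)‖ :=
            norm_sum_le _ _
        _ ≤ ∑ n ∈ Finset.range N, (1 : ℝ) := Finset.sum_le_sum fun n _ => DirichletCharacter.norm_le_one χ _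
        _ = N := by simp
        _ ≤ d := by exact_mod_cast hN.le
    · have hd : 0 < d := Nat.pos_of_ne_zero (NeZero.ne d)
      obtain ⟨M, rfl⟩ : ∃ M, N = d + M := ⟨N - d, by omega⟩
      rw [Finset.sum_range_add, sum_period χ h, zero_add]
      have h2 : ∀ n, χ ((d + n : ℕ) : ZMod d) = χ (n : ZMod d) := by
        intro n; push_cast; rw [ZMod.natCast_self, zero_add]
      simp only [h2]
      exact ih M (by omega)

/-- difference of consecutive powers -/
theorem norm_pow_sub_pow {n : ℕ} (hn : 1 ≤ n) {s : ℂ} (hs : -1 < s.re) :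
    ‖(n : ℂ) ^ (-s) - ((n + 1 : ℕ) : ℂ) ^ (-s)‖ ≤ ‖s‖ * ((n : ℝ) ^ (1 + s.re))⁻¹ := by
  have hn0 : (0 : ℝ) < n := by exact_mod_cast hn
  have hderiv : ∀ x ∈ Set.Icc (n : ℝ) (n + 1), HasDerivWithinAt (fun x : ℝ => (x : ℂ) ^ (-s))
      ((-s) * (x : ℂ) ^ (-s - 1)) (Set.Icc (n : ℝ) (n + 1)) x := by
    intro x hx
    have hx0 : 0 < x := hn0.trans_le hx.1
    by_cases hs0 : s = 0
    · subst hs0
      simp only [neg_zero, cpow_zero, zero_mul]
      exact hasDerivWithinAt_const _ _ _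
    · exact (hasDerivAt_ofReal_cpow_const hx0.ne' (neg_ne_zero.mpr hs0)).hasDerivWithinAt
  have hbound : ∀ x ∈ Set.Icc (n : ℝ) (n + 1), ‖(-s) * (x : ℂ) ^ (-s - 1)‖ ≤ ‖s‖ * ((n : ℝ) ^ (1 + s.re))⁻¹ := by
    intro x hx
    have hx0 : 0 < x := hn0.trans_le hx.1
    rw [norm_mul, norm_neg, norm_cpow_eq_rpow_re_of_pos hx0]
    have : (-s - 1).re = -(1 + s.re) := by simp; ring
    rw [this, Real.rpow_neg hx0.le]
    gcongr
    · linarith
    · exact hx.1
  have h := (convex_Icc (n : ℝ) (n + 1)).norm_image_sub_le_of_norm_hasDerivWithin_le hderiv hbound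
    (Set.right_mem_Icc.mpr (by linarith)) (Set.left_mem_Icc.mpr (by linarith))
  simp only [sub_add_cancel_left, norm_neg, norm_one, mul_one] at h
  push_cast at h ⊢
  exact h

/-- the Abel-summed series -/
noncomputable def gAbel {d : ℕ} (χ : DirichletCharacter ℂ d) (s : ℂ) : ℂ :=
  ∑' n : ℕ, (∑ m ∈ Finset.range (n + 1), χ (m : ZMod d)) * ((n : ℂ) ^ (-s) - ((n + 1 : ℕ) : ℂ) ^ (-s))

theorem norm_gAbel_term {d : ℕ} [NeZero d] (χ : DirichletCharacter ℂ d) (h : χ ≠ 1) (h0 : χ 0 = 0)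
    {s : ℂ} (hs : 0 < s.re) (n : ℕ) :
    ‖(∑ m ∈ Finset.range (n + 1), χ (m : ZMod d)) * ((n : ℂ) ^ (-s) - ((n + 1 : ℕ) : ℂ) ^ (-s))‖ ≤
      d * (‖s‖ * ((n : ℝ) ^ (1 + s.re))⁻¹) := by
  rcases Nat.eq_zero_or_pos n with rfl | hn
  · simp only [zero_add, Finset.range_one, Finset.sum_singleton, Nat.cast_zero, h0, zero_mul, norm_zero]
    positivity
  · rw [norm_mul]
    have h1 := norm_partial_sum χ h (n + 1)
    have h2 := norm_pow_sub_pow hn (s := s) (by linarith)
    gcongr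

theorem summable_gAbel {d : ℕ} [NeZero d] (χ : DirichletCharacter ℂ d) (h : χ ≠ 1) (h0 : χ 0 = 0)
    {s : ℂ} (hs : 0 < s.re) :
    Summable fun n : ℕ => (∑ m ∈ Finset.range (n + 1), χ (m : ZMod d)) *
      ((n : ℂ) ^ (-s) - ((n + 1 : ℕ) : ℂ) ^ (-s)) :=
  Summable.of_norm_bounded (((summable_zr (σ := 1 + s.re) (by linarith)).mul_left ‖s‖).mul_left (d : ℝ))
    (norm_gAbel_term χ h h0 hs)

theorem norm_gAbel {d : ℕ} [NeZero d] (χ : DirichletCharacter ℂ d) (h : χ ≠ 1) (h0 : χ 0 = 0)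
    {s : ℂ} (hs : 0 < s.re) : ‖gAbel χ s‖ ≤ d * (‖s‖ * zr (1 + s.re)) := by
  unfold gAbel zr
  rw [← tsum_mul_left, ← tsum_mul_left]
  refine (norm_tsum_le_tsum_norm (summable_gAbel χ h h0 hs).norm).trans ?_
  exact Summable.tsum_le_tsum (norm_gAbel_term χ h h0 hs) (summable_gAbel χ h h0 hs).norm
    (((summable_zr (σ := 1 + s.re) (by linarith)).mul_left ‖s‖).mul_left (d : ℝ))

theorem differentiableOn_gAbel {d : ℕ} [NeZero d] (χ : DirichletCharacter ℂ d) (h : χ ≠ 1) (h0 : χ 0 = 0) :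
    DifferentiableOn ℂ (gAbel χ) {s | 0 < s.re} := by
  intro s hs
  simp only [Set.mem_ofPred_eq] at hs
  apply DifferentiableAt.differentiableWithinAt
  set U : Set ℂ := {z | s.re / 2 < z.re} ∩ Metric.ball 0 (‖s‖ + 1) with hU
  have hUo : IsOpen U := (isOpen_lt continuous_const continuous_re).inter Metric.isOpen_ball
  have hsU : s ∈ U := ⟨by show s.re / 2 < s.re; linarith, by simp⟩
  have key : DifferentiableOn ℂ (gAbel χ) U := by
    unfold gAbel
    refine differentiableOn_tsum_of_summable_norm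
      (u := fun n : ℕ => (d : ℝ) * ((‖s‖ + 1) * ((n : ℝ) ^ (1 + s.re / 2))⁻¹)) ?_ ?_ hUo ?_
    · exact ((summable_zr (σ := 1 + s.re / 2) (by linarith)).mul_left _).mul_left _
    · intro n
      rcases Nat.eq_zero_or_pos n with rfl | hn
      · simp only [zero_add, Finset.range_one, Finset.sum_singleton, Nat.cast_zero, h0, zero_mul]
        exact differentiableOn_const _
      · apply DifferentiableOn.const_mul
        apply DifferentiableOn.sub
        · exact (Differentiable.const_cpow differentiable_neg (Or.inl (by exact_mod_cast hn.ne'))).differentiableOn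
        · exact (Differentiable.const_cpow differentiable_neg
            (Or.inl (by exact_mod_cast (Nat.succ_ne_zero n)))).differentiableOn
    · rintro n w ⟨hw1, hw2⟩
      simp only [Set.mem_ofPred_eq] at hw1
      rw [mem_ball_zero_iff] at hw2
      refine (norm_gAbel_term χ h h0 (by linarith) n).trans ?_
      rcases Nat.eq_zero_or_pos n with rfl | hn
      · simp only [Nat.cast_zero]
        rw [Real.zero_rpow (by linarith), Real.zero_rpow (by linarith)]
        simp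
      · have h1 : (1 : ℝ) ≤ n := by exact_mod_cast hn
        gcongr
  exact key.differentiableAt (hUo.mem_nhds hsU)

theorem gAbel_eq {d : ℕ} [NeZero d] (χ : DirichletCharacter ℂ d) (h : χ ≠ 1) (h0 : χ 0 = 0)
    {s : ℂ} (hs : 1 < s.re) : gAbel χ s = LSeries (fun n => χ (n : ZMod d)) s := by
  have hterm : ∀ n : ℕ, LSeries.term (fun n => χ (n : ZMod d)) s n = χ (n : ZMod d) * (n : ℂ) ^ (-s) := by
    intro n
    rcases Nat.eq_zero_or_pos n with rfl | hn
    · simp [h0]
    · rw [LSeries.term_of_ne_zero hn.ne', cpow_neg, div_eq_mul_inv]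
  have hfin : ∀ N : ℕ, ∑ n ∈ Finset.range N, χ (n : ZMod d) * (n : ℂ) ^ (-s) =
      ∑ n ∈ Finset.range N, (∑ m ∈ Finset.range (n + 1), χ (m : ZMod d)) *
        ((n : ℂ) ^ (-s) - ((n + 1 : ℕ) : ℂ) ^ (-s)) +
      (∑ m ∈ Finset.range N, χ (m : ZMod d)) * (N : ℂ) ^ (-s) := by
    intro N
    induction N with
    | zero => simp
    | succ N ih =>
      rw [Finset.sum_range_succ, ih, Finset.sum_range_succ (fun n =>
        (∑ m ∈ Finset.range (n + 1), χ (m : ZMod d)) * ((n : ℂ) ^ (-s) - ((n + 1 : ℕ) : ℂ) ^ (-s))),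
        Finset.sum_range_succ (fun m => χ (m : ZMod d)) N]
      ring
  have hs1 : Tendsto (fun N => ∑ n ∈ Finset.range N, χ (n : ZMod d) * (n : ℂ) ^ (-s)) atTop
      (𝓝 (LSeries (fun n => χ (n : ZMod d)) s)) := by
    have : Summable (fun n : ℕ => χ (n : ZMod d) * (n : ℂ) ^ (-s)) := by
      have := DirichletCharacter.LSeriesSummable_of_one_lt_re χ hs
      unfold LSeriesSummable at this
      exact this.congr hterm
    have h2 := this.hasSum.tendsto_sum_nat
    have h3 : LSeries (fun n => χ (n : ZMod d)) s = ∑' n : ℕ, χ (n : ZMod d) * (n : ℂ) ^ (-s) := by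
      unfold LSeries
      exact tsum_congr hterm
    rw [h3]; exact h2
  have hs2 : Tendsto (fun N => ∑ n ∈ Finset.range N, (∑ m ∈ Finset.range (n + 1), χ (m : ZMod d)) *
        ((n : ℂ) ^ (-s) - ((n + 1 : ℕ) : ℂ) ^ (-s)) +
      (∑ m ∈ Finset.range N, χ (m : ZMod d)) * (N : ℂ) ^ (-s)) atTop (𝓝 (gAbel χ s + 0)) := by
    refine Tendsto.add (summable_gAbel χ h h0 (by linarith)).hasSum.tendsto_sum_nat ?_
    rw [tendsto_zero_iff_norm_tendsto_zero]
    have hz : Tendsto (fun N : ℕ => (d : ℝ) * ((N : ℝ) ^ (-s.re))) atTop (𝓝 ((d : ℝ) * 0)) :=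
      (((tendsto_rpow_neg_atTop (by linarith : 0 < s.re)).comp tendsto_natCast_atTop_atTop).const_mul _)
    rw [mul_zero] at hz
    refine squeeze_zero' (Eventually.of_forall fun _ => norm_nonneg _) ?_ hz
    filter_upwards [eventually_gt_atTop 0] with N hN
    rw [norm_mul]
    have h4 := norm_partial_sum χ h N
    have h5 : ‖(N : ℂ) ^ (-s)‖ = (N : ℝ) ^ (-s.re) := by
      have := norm_cpow_eq_rpow_re_of_pos (x := (N : ℝ)) (by exact_mod_cast hN) (-s)
      simpa using this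
    rw [h5]
    gcongr
  rw [add_zero] at hs2
  refine tendsto_nhds_unique hs2 ?_
  exact hs1.congr hfin

theorem norm_LFunction_le {d : ℕ} [NeZero d] (χ : DirichletCharacter ℂ d) (h : χ ≠ 1) (h0 : χ 0 = 0)
    {s : ℂ} (hs : 0 < s.re) : ‖DirichletCharacter.LFunction χ s‖ ≤ d * (‖s‖ * zr (1 + s.re)) := by
  rw [← show gAbel χ s = DirichletCharacter.LFunction χ s from ?_]
  · exact norm_gAbel χ h h0 hs
  have hopen : IsOpen {s : ℂ | 0 < s.re} := isOpen_lt continuous_const continuous_re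
  have hpre : IsPreconnected {s : ℂ | 0 < s.re} := (convex_halfSpace_re_gt 0).isPreconnected
  have h1 : AnalyticOnNhd ℂ (gAbel χ) {s : ℂ | 0 < s.re} :=
    (differentiableOn_gAbel χ h h0).analyticOnNhd hopen
  have h2 : AnalyticOnNhd ℂ (DirichletCharacter.LFunction χ) {s : ℂ | 0 < s.re} :=
    (DirichletCharacter.differentiable_LFunction h).differentiableOn.analyticOnNhd hopen
  have h3 : (2 : ℂ) ∈ {s : ℂ | 0 < s.re} := by simp
  refine h1.eqOn_of_preconnected_of_eventuallyEq h2 hpre h3 ?_ hs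
  have h4 : {s : ℂ | 1 < s.re} ∈ 𝓝 (2 : ℂ) := (isOpen_lt continuous_const continuous_re).mem_nhds (by simp)
  filter_upwards [h4] with z hz
  rw [gAbel_eq χ h h0 hz, DirichletCharacter.LFunction_eq_LSeries χ hz]

/-- the factor of the functional equation -/
noncomputable def X (s : ℂ) : ℂ := Gammaℝ (1 - s) * (Gammaℝ s)⁻¹

theorem exists_Lc {d : ℕ} (hd : IsFundDisc d) (h1 : 1 < d) :
    ∃ (f : ℂ → ℂ) (ε : ℂ), Differentiable ℂ f ∧ (∀ s, 1 < s.re → f s = L d s) ∧ ε ^ 2 = 1 ∧
      (∀ s : ℂ, (∀ n : ℕ, s ≠ 2 * n + 1) → f s = ε * (d : ℂ) ^ (1 / 2 - s) * X s * f (1 - s)) ∧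
      (∀ s : ℂ, 0 < s.re → ‖f s‖ ≤ d * (‖s‖ * zr (1 + s.re))) := by
  have hdne : NeZero d := ⟨by omega⟩
  obtain ⟨χ, hχ, hprim, heven, hinv⟩ := exists_chi hd
  have hne : χ ≠ 1 := by
    rintro rfl
    rw [DirichletCharacter.isPrimitive_def, DirichletCharacter.conductor_one] at hprim
    omega
  have h0 : χ 0 = 0 := DirichletCharacter.map_zero' χ (by omega)
  have hdC : (d : ℂ) ≠ 0 := by exact_mod_cast hdne.out
  have hfe := fun s => DirichletCharacter.IsPrimitive.completedLFunction_one_sub hprim s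
  rw [hinv] at hfe
  have hcomp : ∀ s, DirichletCharacter.LFunction χ s =
      DirichletCharacter.completedLFunction χ s * (Gammaℝ s)⁻¹ := by
    intro s
    rw [DirichletCharacter.LFunction_eq_completed_div_gammaFactor χ s (Or.inr (by omega)),
      heven.gammaFactor_def, div_eq_mul_inv]
  have hL2 : DirichletCharacter.completedLFunction χ 2 ≠ 0 := by
    intro h
    have := hcomp 2
    rw [h, zero_mul] at this
    exact DirichletCharacter.LFunction_ne_zero_of_one_le_re χ (Or.inl hne) (by norm_num) this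
  set ε := DirichletCharacter.rootNumber χ with hε
  have hε2 : ε ^ 2 = 1 := by
    have e1 := hfe (1 - 2)
    have e2 := hfe 2
    rw [sub_sub_cancel] at e1
    rw [e2] at e1
    have e3 : (d : ℂ) ^ ((1 : ℂ) - 2 - 1 / 2) * (d : ℂ) ^ ((2 : ℂ) - 1 / 2) = 1 := by
      rw [← cpow_add _ _ hdC]
      norm_num
    have e4 : DirichletCharacter.completedLFunction χ 2 =
        ε ^ 2 * ((d : ℂ) ^ ((1 : ℂ) - 2 - 1 / 2) * (d : ℂ) ^ ((2 : ℂ) - 1 / 2)) *
          DirichletCharacter.completedLFunction χ 2 := by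
      rw [sq]
      linear_combination e1
    rw [e3, mul_one] at e4
    exact mul_right_cancel₀ hL2 (e4.symm.trans (one_mul _).symm)
  refine ⟨DirichletCharacter.LFunction χ, ε, DirichletCharacter.differentiable_LFunction hne, ?_, hε2, ?_, ?_⟩
  · intro s hs
    rw [DirichletCharacter.LFunction_eq_LSeries χ hs]
    unfold L
    apply LSeries_congr
    intro n hn
    exact hχ n hn
  · intro s hs
    have e1 := hfe (1 - s)
    rw [sub_sub_cancel] at e1
    have e2 : Gammaℝ (1 - s) ≠ 0 := by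
      rw [Ne, Gammaℝ_eq_zero_iff, not_exists]
      intro n hn
      apply hs n
      linear_combination -hn
    rw [hcomp s, e1, hcomp (1 - s)]
    unfold X
    have e3 : (1 : ℂ) - s - 1 / 2 = 1 / 2 - s := by ring
    rw [e3]
    have e4 : Gammaℝ (1 - s) * (Gammaℝ (1 - s))⁻¹ = 1 := mul_inv_cancel₀ e2
    linear_combination (-(d : ℂ) ^ (1 / 2 - s) * ε * DirichletCharacter.completedLFunction χ (1 - s) * (Gammaℝ s)⁻¹) * e4
  · intro s hs
    exact norm_LFunction_le χ hne h0 hs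

end Pool.Agent.MDS
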