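import Pool.Agent.MDS.Defs

set_option autoImplicit false

open Filter Topology

namespace Pool.Agent.MDS

theorem kron_mul (d : ℕ) {m n : ℕ} (hm : m ≠ 0) (hn : n ≠ 0) :
    kron d (m * n) = kron d m * kron d n := by
  unfold kron
  rw [Nat.factorization_mul hm hn, Finsupp.add_apply, pow_add]
  have h := Nat.ordCompl_mul m n 2
  rw [Nat.factorization_mul hm hn, Finsupp.add_apply] at h
  rw [h]
  have h1 : n / 2 ^ n.factorization 2 ≠ 0 := (Nat.ordCompl_pos 2 hn).ne'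
  have h2 : m / 2 ^ m.factorization 2 ≠ 0 := (Nat.ordCompl_pos 2 hm).ne'
  rw [jacobiSym.mul_right' _ h2 h1]
  ring

theorem kron_one_right (d : ℕ) : kron d 1 = 1 := by
  simp [kron]

theorem kron_one_left (n : ℕ) : kron 1 n = 1 := by
  have : ZMod.χ₈ ((1 : ℕ) : ZMod 8) = 1 := by decide
  simp [kron, jacobiSym.one_left]

theorem chi8_abs_le (a : ZMod 8) : |ZMod.χ₈ a| ≤ 1 := by
  revert a; decide

theorem kron_abs_le (d n : ℕ) : |kron d n| ≤ 1 := by
  unfold kron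
  rw [abs_mul, abs_pow]
  have h1 : |ZMod.χ₈ (d : ZMod 8)| ^ (n.factorization 2) ≤ 1 :=
    pow_le_one₀ (abs_nonneg _) (chi8_abs_le _)
  have h2 : |jacobiSym (d : ℤ) (n / 2 ^ n.factorization 2)| ≤ 1 := by
    rcases jacobiSym.trichotomy (d : ℤ) (n / 2 ^ n.factorization 2) with h | h | h <;> simp [h]
  exact mul_le_one₀ h1 (abs_nonneg _) h2

theorem norm_kron_le (d n : ℕ) : ‖(kron d n : ℂ)‖ ≤ 1 := by
  rw [Complex.norm_intCast]
  exact_mod_cast kron_abs_le d n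

theorem isFundDisc_pos {d : ℕ} (h : IsFundDisc d) : 0 < d := by
  rcases h with ⟨h, _⟩ | ⟨m, rfl, h, _⟩ <;> omega

/-- real zeta majorant -/
noncomputable def zr (σ : ℝ) : ℝ := ∑' n : ℕ, ((n : ℝ) ^ σ)⁻¹

theorem summable_zr {σ : ℝ} (hσ : 1 < σ) : Summable (fun n : ℕ => ((n : ℝ) ^ σ)⁻¹) :=
  Real.summable_nat_rpow_inv.mpr hσ

theorem zr_nonneg (σ : ℝ) : 0 ≤ zr σ := tsum_nonneg fun n => by positivity

theorem norm_term_le {d : ℕ} {s : ℂ} (n : ℕ) :
    ‖LSeries.term (fun n => (kron d n : ℂ)) s n‖ ≤ ((n : ℝ) ^ s.re)⁻¹ := by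
  rw [LSeries.norm_term_eq]
  split_ifs with h
  · positivity
  · rw [div_eq_mul_inv]
    exact mul_le_of_le_one_left (by positivity) (norm_kron_le d n)

theorem summable_term {d : ℕ} {s : ℂ} (hs : 1 < s.re) :
    Summable (LSeries.term (fun n => (kron d n : ℂ)) s) :=
  Summable.of_norm_bounded (summable_zr hs) norm_term_le

theorem norm_L_le {d : ℕ} {s : ℂ} (hs : 1 < s.re) : ‖L d s‖ ≤ zr s.re := by
  unfold L LSeries
  exact (norm_tsum_le_tsum_norm (summable_term hs).norm).trans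
    (Summable.tsum_le_tsum norm_term_le (summable_term hs).norm (summable_zr hs))

theorem norm_prod_L_le {k d : ℕ} {s : Fin k → ℂ} (hs : ∀ j, 1 < (s j).re) :
    ‖∏ j, L d (s j)‖ ≤ ∏ j, zr (s j).re := by
  rw [norm_prod]
  exact Finset.prod_le_prod (fun _ _ => norm_nonneg _) fun j _ => norm_L_le (hs j)

theorem prod_zr_nonneg {k : ℕ} (s : Fin k → ℂ) : 0 ≤ ∏ j, zr (s j).re :=
  Finset.prod_nonneg fun _ _ => zr_nonneg _

theorem norm_cpow_neg {d : ℕ} (hd : 0 < d) (w : ℂ) : ‖(d : ℂ) ^ (-w)‖ = ((d : ℝ) ^ w.re)⁻¹ := by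
  rw [Complex.norm_natCast_cpow_of_pos hd, Complex.neg_re, Real.rpow_neg (by positivity)]

theorem summable_fd {σ : ℝ} (hσ : 1 < σ) :
    Summable (fun d : {d : ℕ // IsFundDisc d} => (((d : ℕ) : ℝ) ^ σ)⁻¹) :=
  (summable_zr hσ).comp_injective Subtype.val_injective

theorem norm_A_term_le {k M : ℕ} {s : Fin k → ℂ} (hs : ∀ j, 1 < (s j).re) (w : ℂ)
    (d : {d : ℕ // IsFundDisc d}) :
    ‖(kron d M : ℂ) * (d : ℂ) ^ (-w) * ∏ j, L d (s j)‖ ≤
      (((d : ℕ) : ℝ) ^ w.re)⁻¹ * ∏ j, zr (s j).re := by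
  rw [norm_mul, norm_mul, norm_cpow_neg (isFundDisc_pos d.2)]
  have h1 := norm_kron_le (d : ℕ) M
  have h2 := norm_prod_L_le (d := d) hs
  have h3 := prod_zr_nonneg s
  calc ‖(kron d M : ℂ)‖ * (((d : ℕ) : ℝ) ^ w.re)⁻¹ * ‖∏ j, L d (s j)‖
      ≤ 1 * (((d : ℕ) : ℝ) ^ w.re)⁻¹ * ∏ j, zr (s j).re := by gcongr
    _ = _ := by ring

theorem summable_A {k M : ℕ} {s : Fin k → ℂ} (hs : ∀ j, 1 < (s j).re) {w : ℂ} (hw : 1 < w.re) :
    Summable (fun d : {d : ℕ // IsFundDisc d} =>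
      (kron d M : ℂ) * (d : ℂ) ^ (-w) * ∏ j, L d (s j)) :=
  Summable.of_norm_bounded ((summable_fd hw).mul_right _) (norm_A_term_le hs w)

/-- bound for `A`, uniform in `M` -/
theorem norm_A_le {k : ℕ} {s : Fin k → ℂ} (hs : ∀ j, 1 < (s j).re) {w : ℂ} (hw : 1 < w.re) (M : ℕ) :
    ‖A k M s w‖ ≤ ∑' d : {d : ℕ // IsFundDisc d}, (((d : ℕ) : ℝ) ^ w.re)⁻¹ * ∏ j, zr (s j).re := by
  unfold A
  exact (norm_tsum_le_tsum_norm (summable_A hs hw).norm).trans
    (Summable.tsum_le_tsum (norm_A_term_le hs w) (summable_A hs hw).norm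
      ((summable_fd hw).mul_right _))

/-- Expansion of `A` with respect to the first variable. -/
theorem A_succ {k M : ℕ} (hM : M ≠ 0) {s : Fin k → ℂ} (hs : ∀ j, 1 < (s j).re) {w u : ℂ} (hw : 1 < w.re)
    (hu : 1 < u.re) :
    A (k + 1) M (Fin.cons u s) w = ∑' m : ℕ, (if m = 0 then 0 else A k (M * m) s w * (m : ℂ) ^ (-u)) := by
  set f : {d : ℕ // IsFundDisc d} → ℕ → ℂ := fun d m =>
    (kron d M : ℂ) * (d : ℂ) ^ (-w) * (∏ j, L d (s j)) * LSeries.term (fun n => (kron d n : ℂ)) u m with hf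
  set g : {d : ℕ // IsFundDisc d} → ℝ := fun d => (((d : ℕ) : ℝ) ^ w.re)⁻¹ * ∏ j, zr (s j).re with hg
  set h : ℕ → ℝ := fun m => ((m : ℝ) ^ u.re)⁻¹ with hh
  have hg0 : 0 ≤ g := fun d => mul_nonneg (by positivity) (prod_zr_nonneg s)
  have hh0 : 0 ≤ h := fun m => by rw [hh]; positivity
  have hgs : Summable g := (summable_fd hw).mul_right _
  have hhs : Summable h := summable_zr hu
  have hprod : Summable (fun p : {d : ℕ // IsFundDisc d} × ℕ => g p.1 * h p.2) :=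
    Summable.mul_of_nonneg hgs hhs hg0 hh0
  have hfle : ∀ d m, ‖f d m‖ ≤ g d * h m := by
    intro d m
    rw [hf]
    simp only
    rw [norm_mul]
    exact mul_le_mul (norm_A_term_le hs w d) (norm_term_le m) (norm_nonneg _) (hg0 d)
  have hsummable : Summable (Function.uncurry f) :=
    Summable.of_norm_bounded hprod fun p => hfle p.1 p.2
  have h1 : A (k + 1) M (Fin.cons u s) w = ∑' d : {d : ℕ // IsFundDisc d}, ∑' m : ℕ, f d m := by
    unfold A
    refine tsum_congr fun d => ?_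
    rw [Fin.prod_univ_succ]
    simp only [Fin.cons_zero, Fin.cons_succ]
    have : L d u = ∑' m : ℕ, LSeries.term (fun n => (kron d n : ℂ)) u m := rfl
    rw [hf]
    simp only
    rw [tsum_mul_left, ← this]
    ring
  rw [h1, ← hsummable.tsum_comm]
  refine tsum_congr fun m => ?_
  split_ifs with hm
  · subst hm
    simp [hf, LSeries.term_zero]
  · unfold A
    rw [← tsum_mul_right]
    refine tsum_congr fun d => ?_
    rw [hf]
    simp only
    rw [LSeries.term_of_ne_zero hm, kron_mul _ hM hm, Complex.cpow_neg (m : ℂ) u]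
    push_cast
    ring

theorem zeta_eq {u : ℂ} (hu : 1 < u.re) :
    riemannZeta u = ∑' m : ℕ, (if m = 0 then 0 else (m : ℂ) ^ (-u)) := by
  rw [zeta_eq_tsum_one_div_nat_cpow hu]
  refine tsum_congr fun m => ?_
  split_ifs with hm
  · subst hm
    have : u ≠ 0 := by
      rintro rfl
      simp at hu
      linarith
    simp [Complex.zero_cpow this]
  · rw [Complex.cpow_neg, one_div]

theorem summable_zeta_terms {u : ℂ} (hu : 1 < u.re) :
    Summable (fun m : ℕ => (if m = 0 then (0 : ℂ) else (m : ℂ) ^ (-u))) := by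
  refine Summable.of_norm_bounded (summable_zr hu) fun m => ?_
  split_ifs with hm
  · simp only [norm_zero]; positivity
  · rw [norm_cpow_neg (by omega)]

theorem summable_A_terms {k M : ℕ} {s : Fin k → ℂ} (hs : ∀ j, 1 < (s j).re) {w u : ℂ} (hw : 1 < w.re)
    (hu : 1 < u.re) :
    Summable (fun m : ℕ => (if m = 0 then 0 else A k (M * m) s w * (m : ℂ) ^ (-u))) := by
  refine Summable.of_norm_bounded ((summable_zr hu).mul_left
    (∑' d : {d : ℕ // IsFundDisc d}, (((d : ℕ) : ℝ) ^ w.re)⁻¹ * ∏ j, zr (s j).re)) fun m => ?_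
  have h0 : 0 ≤ ∑' d : {d : ℕ // IsFundDisc d}, (((d : ℕ) : ℝ) ^ w.re)⁻¹ * ∏ j, zr (s j).re :=
    tsum_nonneg fun d => mul_nonneg (by positivity) (prod_zr_nonneg s)
  split_ifs with hm
  · simp only [norm_zero]; positivity
  · rw [norm_mul, norm_cpow_neg (by omega)]
    have := norm_A_le hs hw (M * m)
    gcongr

/-- The difference `A_M - ∏ ζ`, expanded with respect to the first variable. -/
theorem A_sub_succ {k M : ℕ} (hM : M ≠ 0) {s : Fin k → ℂ} (hs : ∀ j, 1 < (s j).re) {w u : ℂ}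
    (hw : 1 < w.re) (hu : 1 < u.re) :
    A (k + 1) M (Fin.cons u s) w - ∏ j, riemannZeta ((Fin.cons u s : Fin (k + 1) → ℂ) j) =
      ∑' m : ℕ, (if m = 0 then 0 else (A k (M * m) s w - ∏ j, riemannZeta (s j)) * (m : ℂ) ^ (-u)) := by
  rw [A_succ hM hs hw hu, Fin.prod_univ_succ]
  simp only [Fin.cons_zero, Fin.cons_succ]
  rw [zeta_eq hu, ← tsum_mul_right, ← (summable_A_terms hs hw hu).tsum_sub
    ((summable_zeta_terms hu).mul_right _)]
  refine tsum_congr fun m => ?_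
  split_ifs with hm
  · simp
  · ring

end Pool.Agent.MDS
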