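import Pool.Agent.MDS.Basic

set_option autoImplicit false

open ZMod NumberTheorySymbols

namespace Pool.Agent.MDS

/-- a Dirichlet character from an integer function -/
noncomputable def mkChar (d : ℕ) [NeZero d] (g : ℤ → ℤ) (h1 : g 1 = 1)
    (hmul : ∀ x y, g (x * y) = g x * g y)
    (hper : ∀ x y : ℤ, (x : ZMod d) = y → g x = g y)
    (h0 : ∀ x : ℤ, ¬ IsCoprime x (d : ℤ) → g x = 0) : DirichletCharacter ℂ d where
  toFun a := (g a.val : ℂ)
  map_one' := by
    have : g (((1 : ZMod d).val : ℕ) : ℤ) = g 1 := by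
      apply hper
      simp
    rw [this, h1]
    simp
  map_mul' a b := by
    have : g (((a * b : ZMod d).val : ℕ) : ℤ) = g ((a.val : ℤ) * (b.val : ℤ)) := by
      apply hper
      simp
    rw [this, hmul]
    push_cast
    rfl
  map_nonunit' a ha := by
    have : g ((a.val : ℕ) : ℤ) = 0 := by
      apply h0
      intro hcop
      apply ha
      have := (ZMod.coe_int_isUnit_iff_isCoprime ((a.val : ℕ) : ℤ) d).mpr hcop.symm
      simpa using this
    rw [this]
    simp

theorem mkChar_apply (d : ℕ) [NeZero d] (g : ℤ → ℤ) (h1 : g 1 = 1)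
    (hmul : ∀ x y, g (x * y) = g x * g y)
    (hper : ∀ x y : ℤ, (x : ZMod d) = y → g x = g y)
    (h0 : ∀ x : ℤ, ¬ IsCoprime x (d : ℤ) → g x = 0) (x : ℤ) :
    mkChar d g h1 hmul hper h0 (x : ZMod d) = (g x : ℂ) := by
  show ((g ((x : ZMod d).val : ℤ) : ℤ) : ℂ) = (g x : ℂ)
  congr 1
  apply hper
  simp

/-- a criterion for primitivity -/
theorem isPrimitive_of {d : ℕ} [NeZero d] (χ : DirichletCharacter ℂ d)
    (h : ∀ p : ℕ, p.Prime → p ∣ d → ∃ x : ℤ, IsCoprime x (d : ℤ) ∧ ((x : ℤ) : ZMod (d / p)) = 1 ∧
      χ (x : ZMod d) ≠ 1) : χ.IsPrimitive := by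
  rw [DirichletCharacter.isPrimitive_def]
  by_contra hne
  have hdvd := DirichletCharacter.conductor_dvd_level χ
  obtain ⟨e, he⟩ := hdvd
  have he1 : e ≠ 1 := by
    rintro rfl
    apply hne
    rw [mul_one] at he
    exact he.symm
  obtain ⟨p, hp, hpe⟩ := Nat.exists_prime_and_dvd he1
  have hpd : p ∣ d := by rw [he]; exact hpe.mul_left _
  obtain ⟨e', rfl⟩ := hpe
  have hcd : χ.conductor ∣ d / p := by
    refine ⟨e', ?_⟩
    apply Nat.div_eq_of_eq_mul_right hp.pos
    conv_lhs => rw [he]
    ring
  obtain ⟨x, hx1, hx2, hx3⟩ := h p hp hpd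
  have hfac := DirichletCharacter.FactorsThrough.mono χ (DirichletCharacter.factorsThrough_conductor χ) hcd
    (Nat.div_dvd_of_dvd hpd)
  obtain ⟨hdiv, χ₀, hχ₀⟩ := hfac
  apply hx3
  rw [hχ₀, DirichletCharacter.changeLevel_eq_cast_of_dvd' _ hdiv hx1, hx2, map_one]

theorem exists_nonresidue {p : ℕ} (hp : p.Prime) (hp2 : p ≠ 2) : ∃ r : ℕ, J((r : ℤ) | p) = -1 := by
  have : Fact p.Prime := ⟨hp⟩
  obtain ⟨a, ha⟩ := FiniteField.exists_nonsquare (F := ZMod p) (by rw [ZMod.ringChar_zmod_n]; exact hp2)
  refine ⟨a.val, ?_⟩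
  rw [← jacobiSym.legendreSym.to_jacobiSym, legendreSym.eq_neg_one_iff]
  simpa using ha

theorem exists_char_aux {d q b : ℕ} (hd : d = q * b) (hq : q ≠ 0) (hb : b ≠ 0) (hcop : q.Coprime b)
    (hbsq : Squarefree b) (hbodd : Odd b) (ψ : DirichletCharacter ℤ q)
    (hψq : ∀ x : ℤ, ψ x = 0 ∨ ψ x = 1 ∨ ψ x = -1)
    (hψ : ∀ p : ℕ, p.Prime → p ∣ q → ∃ y : ℕ, Nat.Coprime y q ∧ y ≡ 1 [MOD (q / p)] ∧
      ψ (y : ℤ) ≠ 1)
    (heven : ψ ((-1 : ℤ) : ZMod q) * J(-1 | b) = 1) :
    ∃ χ : DirichletCharacter ℂ d, (∀ x : ℤ, χ (x : ZMod d) = ((ψ (x : ZMod q) * J(x | b) : ℤ) : ℂ)) ∧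
      χ.IsPrimitive ∧ χ.Even ∧ χ⁻¹ = χ := by
  subst hd
  have : NeZero q := ⟨hq⟩
  have : NeZero b := ⟨hb⟩
  have : NeZero (q * b) := ⟨mul_ne_zero hq hb⟩
  have hper : ∀ x y : ℤ, (x : ZMod (q * b)) = y → ψ x * J(x | b) = ψ y * J(y | b) := by
    intro x y hxy
    rw [ZMod.intCast_eq_intCast_iff] at hxy
    push_cast at hxy
    have h1 : (x : ZMod q) = y := by
      rw [ZMod.intCast_eq_intCast_iff]
      exact hxy.of_mul_right _
    have h2 : x % b = y % b := hxy.of_mul_left _
    rw [h1, jacobiSym.mod_left' h2]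
  have h0 : ∀ x : ℤ, ¬ IsCoprime x ((q * b : ℕ) : ℤ) → ψ x * J(x | b) = 0 := by
    intro x hx
    rw [Nat.cast_mul, IsCoprime.mul_right_iff, not_and_or] at hx
    rcases hx with hx | hx
    · rw [(DirichletCharacter.apply_eq_zero_iff ψ x).mpr hx, zero_mul]
    · have : J(x | b) = 0 := by
        rw [jacobiSym.eq_zero_iff_not_coprime]
        intro h
        exact hx (Int.isCoprime_iff_gcd_eq_one.mpr h)
      rw [this, mul_zero]
  set χ := mkChar (q * b) (fun x => ψ x * J(x | b)) (by simp) (by
    intro x y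
    simp only [Int.cast_mul, map_mul, jacobiSym.mul_left]
    ring) hper h0 with hχ
  have hval : ∀ x : ℤ, χ (x : ZMod (q * b)) = ((ψ (x : ZMod q) * J(x | b) : ℤ) : ℂ) := by
    intro x
    rw [hχ, mkChar_apply]
  refine ⟨χ, hval, ?_, ?_, ?_⟩
  · apply isPrimitive_of
    intro p hp hpd
    by_cases hpq : p ∣ q
    · obtain ⟨y, hy1, hy2, hy3⟩ := hψ p hp hpq
      obtain ⟨x, hx1, hx2⟩ := Nat.chineseRemainder hcop y 1
      have hxq : ((x : ℤ) : ZMod q) = ((y : ℤ) : ZMod q) := by
        rw [Int.cast_natCast, Int.cast_natCast, ZMod.natCast_eq_natCast_iff]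
        exact hx1
      have hxb : J((x : ℤ) | b) = 1 := by
        have : J((x : ℤ) | b) = J(1 | b) := by
          apply jacobiSym.mod_left'
          have : (x : ℤ) ≡ ((1 : ℕ) : ℤ) [ZMOD b] := by
            rw [Int.natCast_modEq_iff]; exact hx2
          exact this
        rw [this, jacobiSym.one_left]
      refine ⟨(x : ℤ), ?_, ?_, ?_⟩
      · rw [Nat.isCoprime_iff_coprime]
        apply Nat.Coprime.mul_right
        · have := hx1.gcd_eq
          rw [Nat.coprime_iff_gcd_eq_one, Nat.gcd_comm, Nat.gcd_comm] at hy1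
          rw [Nat.coprime_iff_gcd_eq_one, ← hy1]
          rw [this]
        · have := hx2.gcd_eq
          rw [Nat.coprime_iff_gcd_eq_one, this]
          simp
      · have h1 : x ≡ 1 [MOD (q / p)] := (hx1.of_dvd (Nat.div_dvd_of_dvd hpq)).trans hy2
        have h2 : q * b / p = q / p * b := by
          obtain ⟨q', rfl⟩ := hpq
          rw [Nat.mul_div_cancel_left _ hp.pos, mul_assoc, Nat.mul_div_cancel_left _ hp.pos]
        rw [h2]
        have hcop' : (q / p).Coprime b := hcop.coprime_dvd_left (Nat.div_dvd_of_dvd hpq)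
        have h3 : x ≡ 1 [MOD (q / p * b)] := (Nat.modEq_and_modEq_iff_modEq_mul hcop').mp ⟨h1, hx2⟩
        have := (ZMod.natCast_eq_natCast_iff _ _ _).mpr h3
        push_cast at this ⊢
        exact this
      · rw [hval, hxb, mul_one, hxq]
        intro h
        apply hy3
        exact_mod_cast h
    · have hpb : p ∣ b := (hp.dvd_mul.mp hpd).resolve_left hpq
      have hp2 : p ≠ 2 := by
        rintro rfl
        rw [Nat.odd_iff] at hbodd
        omega
      obtain ⟨b', rfl⟩ := hpb
      have hb'0 : b' ≠ 0 := fun h => hb (by rw [h, mul_zero])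
      have : NeZero b' := ⟨hb'0⟩
      have : NeZero p := ⟨hp.ne_zero⟩
      have hpb' : p.Coprime b' := Nat.coprime_of_squarefree_mul hbsq
      have hqp : q.Coprime p := hcop.coprime_dvd_right (Dvd.intro _ rfl)
      have hqb' : q.Coprime b' := hcop.coprime_dvd_right (Dvd.intro_left _ rfl)
      obtain ⟨r, hr⟩ := exists_nonresidue hp hp2
      have hcop2 : (q * b').Coprime p := Nat.Coprime.mul_left hqp hpb'.symm
      obtain ⟨x, hx1, hx2⟩ := Nat.chineseRemainder hcop2 1 r
      have hxq : ((x : ℤ) : ZMod q) = 1 := by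
        have : x ≡ 1 [MOD q] := hx1.of_dvd (Dvd.intro _ rfl)
        have := (ZMod.natCast_eq_natCast_iff _ _ _).mpr this
        push_cast at this ⊢
        exact this
      have hxb' : J((x : ℤ) | b') = 1 := by
        have : J((x : ℤ) | b') = J(1 | b') := by
          apply jacobiSym.mod_left'
          have : (x : ℤ) ≡ ((1 : ℕ) : ℤ) [ZMOD b'] := by
            rw [Int.natCast_modEq_iff]; exact hx1.of_dvd (Dvd.intro_left _ rfl)
          exact this
        rw [this, jacobiSym.one_left]
      have hxp : J((x : ℤ) | p) = -1 := by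
        rw [← hr]
        apply jacobiSym.mod_left'
        have : (x : ℤ) ≡ (r : ℤ) [ZMOD p] := by
          rw [Int.natCast_modEq_iff]; exact hx2
        exact this
      have hxJ : J((x : ℤ) | p * b') = -1 := by
        rw [jacobiSym.mul_right, hxp, hxb', mul_one]
      refine ⟨(x : ℤ), ?_, ?_, ?_⟩
      · by_contra hc
        have h1 := h0 _ hc
        rw [hxJ, hxq] at h1
        simp at h1
      · have h2 : q * (p * b') / p = q * b' := by
          rw [show q * (p * b') = p * (q * b') by ring, Nat.mul_div_cancel_left _ hp.pos]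
        rw [h2]
        have := (ZMod.natCast_eq_natCast_iff _ _ _).mpr hx1
        push_cast at this ⊢
        exact this
      · rw [hval, hxJ, hxq]
        simp
        norm_num
  · show χ (-1) = 1
    have := hval (-1)
    rw [heven] at this
    simpa using this
  · apply MulChar.IsQuadratic.inv
    intro a
    have ha : a = ((a.val : ℤ) : ZMod (q * b)) := by simp
    rw [ha, hval]
    rcases hψq (a.val : ℤ) with h | h | h
    · left; rw [h]; simp
    · rw [h]
      rcases jacobiSym.trichotomy (a.val : ℤ) b with h' | h' | h' <;> rw [h'] <;> simp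
    · rw [h]
      rcases jacobiSym.trichotomy (a.val : ℤ) b with h' | h' | h' <;> rw [h'] <;> simp

theorem two_part {n : ℕ} (hn : n ≠ 0) : Odd (n / 2 ^ n.factorization 2) ∧
    n = 2 ^ n.factorization 2 * (n / 2 ^ n.factorization 2) := by
  constructor
  · have := Nat.coprime_ordCompl Nat.prime_two hn
    rw [Nat.coprime_two_left] at this
    exact this
  · exact (Nat.ordProj_mul_ordCompl_eq_self n 2).symm

/-- the Kronecker character of a positive fundamental discriminant -/
theorem exists_chi {d : ℕ} (hd : IsFundDisc d) :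
    ∃ χ : DirichletCharacter ℂ d, (∀ n : ℕ, n ≠ 0 → χ (n : ZMod d) = (kron d n : ℂ)) ∧
      χ.IsPrimitive ∧ χ.Even ∧ χ⁻¹ = χ := by
  rcases hd with ⟨hd4, hsq⟩ | ⟨m, rfl, hm4, hsq⟩
  · -- `d` is `1` mod `4`
    have hodd : Odd d := Nat.odd_iff.mpr (by omega)
    obtain ⟨χ, h1, h2, h3, h4⟩ := exists_char_aux (d := d) (q := 1) (b := d) (by ring) one_ne_zero
      (by omega) (Nat.coprime_one_left d) hsq hodd (1 : DirichletCharacter ℤ 1)
      (fun x => Or.inr (Or.inl (by rw [MulChar.one_apply (isUnit_of_subsingleton _)])))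
      (by
        intro p hp hp1
        exact absurd (Nat.dvd_one.mp hp1) hp.one_lt.ne')
      (by
        rw [MulChar.one_apply (isUnit_of_subsingleton _), one_mul, jacobiSym.at_neg_one hodd,
          ZMod.χ₄_nat_one_mod_four hd4])
    refine ⟨χ, ?_, h2, h3, h4⟩
    intro n hn
    have h5 := h1 (n : ℤ)
    rw [MulChar.one_apply (isUnit_of_subsingleton _), one_mul] at h5
    rw [Int.cast_natCast] at h5
    rw [h5]
    congr 1
    obtain ⟨ho, hn2⟩ := two_part hn
    unfold kron
    set v := n.factorization 2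
    set u := n / 2 ^ v
    have h6 : J((d : ℤ) | u) = J((u : ℤ) | d) := jacobiSym.quadratic_reciprocity_one_mod_four hd4 ho
    rw [h6]
    conv_lhs => rw [hn2]
    push_cast
    rw [jacobiSym.mul_left, jacobiSym.pow_left, jacobiSym.at_two hodd]
  · have h0 : ZMod.χ₈ ((4 * m : ℕ) : ZMod 8) = 0 := by
      rw [ZMod.χ₈_nat_eq_if_mod_eight, if_pos (by omega)]
    have hkron_even : ∀ n : ℕ, n ≠ 0 → n % 2 = 0 → kron (4 * m) n = 0 := by
      intro n hn hn2
      unfold kron
      rw [h0, zero_pow, zero_mul]
      have : 2 ∣ n := Nat.dvd_of_mod_eq_zero hn2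
      exact (Nat.Prime.factorization_pos_of_dvd Nat.prime_two hn this).ne'
    have hkron_odd : ∀ n : ℕ, n % 2 = 1 → kron (4 * m) n = J((m : ℤ) | n) := by
      intro n hn
      unfold kron
      have hv : n.factorization 2 = 0 := Nat.factorization_eq_zero_of_not_dvd (by omega)
      rw [hv, pow_zero, one_mul, pow_zero, Nat.div_one]
      push_cast
      rw [show (4 : ℤ) * m = 2 ^ 2 * m by ring, jacobiSym.mul_left, jacobiSym.sq_one', one_mul]
      rw [Int.gcd_comm]
      have : Nat.Coprime n 2 := by
        rw [Nat.coprime_two_right, Nat.odd_iff]; exact hn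
      exact_mod_cast this
    rcases hm4 with hm4 | hm4
    · -- `m = 2 m'`
      obtain ⟨m', rfl⟩ : ∃ m', m = 2 * m' := ⟨m / 2, by omega⟩
      have hodd : Odd m' := Nat.odd_iff.mpr (by omega)
      have hsq' : Squarefree m' := hsq.squarefree_of_dvd (Dvd.intro_left _ rfl)
      have hcop : Nat.Coprime 8 m' := by
        have : Nat.Coprime 2 m' := by rw [Nat.coprime_two_left]; exact hodd
        exact Nat.Coprime.pow_left 3 this
      rcases (Nat.odd_mod_four_iff.mp (Nat.odd_iff.mp hodd)) with h1 | h3
      · obtain ⟨χ, h1', h2', h3', h4'⟩ := exists_char_aux (d := 4 * (2 * m')) (q := 8) (b := m') (by ring)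
          (by norm_num) (by rintro rfl; simp at hm4) hcop hsq' hodd ZMod.χ₈
          (fun x => by
            generalize (x : ZMod 8) = a
            revert a
            decide)
          (by
            intro p hp hp8
            have : p = 2 := (Nat.prime_dvd_prime_iff_eq hp Nat.prime_two).mp
              (hp.dvd_of_dvd_pow (show p ∣ 2 ^ 3 from hp8))
            subst this
            exact ⟨5, by decide, by decide, by decide⟩)
          (by
            rw [jacobiSym.at_neg_one hodd, ZMod.χ₄_nat_one_mod_four h1]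
            decide)
        refine ⟨χ, ?_, h2', h3', h4'⟩
        intro n hn
        have h5 := h1' (n : ℤ)
        rw [Int.cast_natCast] at h5
        rw [h5]
        congr 1
        rcases Nat.mod_two_eq_zero_or_one n with he | ho
        · rw [hkron_even n hn he, Int.cast_natCast, ZMod.χ₈_nat_eq_if_mod_eight, if_pos he, zero_mul]
        · rw [hkron_odd n ho]
          have hno : Odd n := Nat.odd_iff.mpr ho
          push_cast
          rw [jacobiSym.mul_left, jacobiSym.at_two hno,
            jacobiSym.quadratic_reciprocity_one_mod_four h1 hno]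
      · obtain ⟨χ, h1', h2', h3', h4'⟩ := exists_char_aux (d := 4 * (2 * m')) (q := 8) (b := m') (by ring)
          (by norm_num) (by rintro rfl; simp at hm4) hcop hsq' hodd ZMod.χ₈'
          (fun x => by
            generalize (x : ZMod 8) = a
            revert a
            decide)
          (by
            intro p hp hp8
            have : p = 2 := (Nat.prime_dvd_prime_iff_eq hp Nat.prime_two).mp
              (hp.dvd_of_dvd_pow (show p ∣ 2 ^ 3 from hp8))
            subst this
            exact ⟨5, by decide, by decide, by decide⟩)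
          (by
            rw [jacobiSym.at_neg_one hodd, ZMod.χ₄_nat_three_mod_four h3]
            decide)
        refine ⟨χ, ?_, h2', h3', h4'⟩
        intro n hn
        have h5 := h1' (n : ℤ)
        rw [Int.cast_natCast] at h5
        rw [h5]
        congr 1
        rw [ZMod.χ₈'_int_eq_χ₄_mul_χ₈]
        rcases Nat.mod_two_eq_zero_or_one n with he | ho
        · rw [hkron_even n hn he, Int.cast_natCast, Int.cast_natCast, ZMod.χ₈_nat_eq_if_mod_eight,
            if_pos he, mul_zero, zero_mul]
        · rw [hkron_odd n ho]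
          have hno : Odd n := Nat.odd_iff.mpr ho
          push_cast
          rw [jacobiSym.mul_left, jacobiSym.at_two hno]
          rcases (Nat.odd_mod_four_iff.mp ho) with hn1 | hn3
          · rw [ZMod.χ₄_nat_one_mod_four hn1, one_mul,
              jacobiSym.quadratic_reciprocity_one_mod_four hn1 hodd]
          · rw [ZMod.χ₄_nat_three_mod_four hn3, jacobiSym.quadratic_reciprocity_three_mod_four h3 hn3]
            ring
    · have hodd : Odd m := Nat.odd_iff.mpr (by omega)
      have hcop : Nat.Coprime 4 m := by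
        have : Nat.Coprime 2 m := by rw [Nat.coprime_two_left]; exact hodd
        exact Nat.Coprime.pow_left 2 this
      obtain ⟨χ, h1', h2', h3', h4'⟩ := exists_char_aux (d := 4 * m) (q := 4) (b := m) rfl
          (by norm_num) (by rintro rfl; simp at hm4) hcop hsq hodd ZMod.χ₄
          (fun x => by
            generalize (x : ZMod 4) = a
            revert a
            decide)
          (by
            intro p hp hp8
            have : p = 2 := (Nat.prime_dvd_prime_iff_eq hp Nat.prime_two).mp
              (hp.dvd_of_dvd_pow (show p ∣ 2 ^ 2 from hp8))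
            subst this
            exact ⟨3, by decide, by decide, by decide⟩)
          (by
            rw [jacobiSym.at_neg_one hodd, ZMod.χ₄_nat_three_mod_four hm4]
            decide)
      refine ⟨χ, ?_, h2', h3', h4'⟩
      intro n hn
      have h5 := h1' (n : ℤ)
      rw [Int.cast_natCast] at h5
      rw [h5]
      congr 1
      rcases Nat.mod_two_eq_zero_or_one n with he | ho
      · rw [hkron_even n hn he, Int.cast_natCast, ZMod.χ₄_nat_eq_if_mod_four, if_pos he, zero_mul]
      · rw [hkron_odd n ho]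
        have hno : Odd n := Nat.odd_iff.mpr ho
        rw [Int.cast_natCast]
        rcases (Nat.odd_mod_four_iff.mp ho) with hn1 | hn3
        · rw [ZMod.χ₄_nat_one_mod_four hn1, one_mul,
            jacobiSym.quadratic_reciprocity_one_mod_four hn1 hodd]
        · rw [ZMod.χ₄_nat_three_mod_four hn3, jacobiSym.quadratic_reciprocity_three_mod_four hm4 hn3]
          ring

end Pool.Agent.MDS
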