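import Pool.Agent.MDS.Basic
import Pool.Agent.TubeDS.Extraction

set_option autoImplicit false
set_option linter.unusedVariables false

open Filter Topology
open Pool.Agent.TubeDS

namespace Pool.Agent.MDS

theorem prod_finset_succ {k : ℕ} (g : Finset (Fin (k + 1)) → ℂ) :
    ∏ J : Finset (Fin (k + 1)), g J =
      (∏ J : Finset (Fin k), g (J.image Fin.succ)) *
        ∏ J : Finset (Fin k), g (insert 0 (J.image Fin.succ)) := by
  have h0 : (0 : Fin (k + 1)) ∉ (Finset.univ : Finset (Fin k)).image Fin.succ := by
    simp
  have hinj : Function.Injective (fun J : Finset (Fin k) => J.image Fin.succ) :=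
    Finset.image_injective (Fin.succ_injective k)
  have hps : ((Finset.univ : Finset (Fin k)).image Fin.succ).powerset =
      (Finset.univ : Finset (Finset (Fin k))).image (fun J => J.image Fin.succ) := by
    rw [Finset.powerset_image, Finset.powerset_univ]
  calc ∏ J : Finset (Fin (k + 1)), g J
      = ∏ J ∈ (Finset.univ : Finset (Fin (k + 1))).powerset, g J := by rw [Finset.powerset_univ]
    _ = ∏ J ∈ (insert 0 ((Finset.univ : Finset (Fin k)).image Fin.succ)).powerset, g J := by
        rw [Fin.univ_succ, Finset.cons_eq_insert, Finset.map_eq_image]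
        rfl
    _ = (∏ J ∈ ((Finset.univ : Finset (Fin k)).image Fin.succ).powerset, g J) *
        ∏ J ∈ ((Finset.univ : Finset (Fin k)).image Fin.succ).powerset, g (insert 0 J) :=
        Finset.prod_powerset_insert h0 g
    _ = _ := by
        rw [hps, Finset.prod_image (fun a _ b _ h => hinj h), Finset.prod_image (fun a _ b _ h => hinj h)]

/-- coordinates: `none ↦ w`, `some j ↦ s_j` -/
def toP {k : ℕ} {R : Type*} (x : Option (Fin k) → R) : (Fin k → R) × R := (fun j => x (some j), x none)

/-- inverse coordinates -/
def ofP {k : ℕ} {R : Type*} (p : (Fin k → R) × R) : Option (Fin k) → R := fun o => o.elim p.2 p.1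

@[simp] theorem toP_ofP {k : ℕ} {R : Type*} (p : (Fin k → R) × R) : toP (ofP p) = p := rfl

@[simp] theorem ofP_toP {k : ℕ} {R : Type*} (x : Option (Fin k) → R) : ofP (toP x) = x := by
  funext o; cases o <;> rfl

/-- coordinates at level `k + 1`: `none ↦ s_0`, `some none ↦ w`, `some (some j) ↦ s_{j+1}` -/
def toQ {k : ℕ} {R : Type*} (x : Option (Option (Fin k)) → R) : (Fin (k + 1) → R) × R :=
  (Fin.cons (x none) (fun j => x (some (some j))), x (some none))

/-- inverse coordinates at level `k + 1` -/
def ofQ {k : ℕ} {R : Type*} (p : (Fin (k + 1) → R) × R) : Option (Option (Fin k)) → R :=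
  fun o => o.elim (p.1 0) (fun o' => o'.elim p.2 (fun j => p.1 j.succ))

@[simp] theorem toQ_ofQ {k : ℕ} {R : Type*} (p : (Fin (k + 1) → R) × R) : toQ (ofQ p) = p := by
  refine Prod.ext ?_ rfl
  funext j
  refine Fin.cases ?_ (fun i => ?_) j <;> rfl

@[simp] theorem ofQ_toQ {k : ℕ} {R : Type*} (x : Option (Option (Fin k)) → R) : ofQ (toQ x) = x := by
  funext o
  cases o with
  | none => rfl
  | some o' => cases o' with
    | none => rfl
    | some j => simp [toQ, ofQ]

theorem continuous_toP {k : ℕ} {R : Type*} [TopologicalSpace R] :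
    Continuous (toP : (Option (Fin k) → R) → (Fin k → R) × R) := by
  unfold toP; fun_prop

theorem continuous_ofP {k : ℕ} {R : Type*} [TopologicalSpace R] :
    Continuous (ofP : (Fin k → R) × R → (Option (Fin k) → R)) := by
  refine continuous_pi fun o => ?_
  cases o with
  | none => exact continuous_snd
  | some j => exact (continuous_apply j).comp continuous_fst

theorem continuous_toQ {k : ℕ} {R : Type*} [TopologicalSpace R] :
    Continuous (toQ : (Option (Option (Fin k)) → R) → (Fin (k + 1) → R) × R) := by
  refine Continuous.prodMk ?_ (continuous_apply _)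
  refine continuous_pi fun j => ?_
  refine Fin.cases ?_ (fun i => ?_) j
  · simp only [Fin.cons_zero]; fun_prop
  · simp only [Fin.cons_succ]; fun_prop

theorem continuous_ofQ {k : ℕ} {R : Type*} [TopologicalSpace R] :
    Continuous (ofQ : (Fin (k + 1) → R) × R → (Option (Option (Fin k)) → R)) := by
  refine continuous_pi fun o => ?_
  cases o with
  | none => exact (by fun_prop : Continuous (fun a : (Fin (k + 1) → R) × R => a.1 0))
  | some o' => cases o' with
    | none => exact continuous_snd
    | some j => exact (by fun_prop : Continuous (fun a : (Fin (k + 1) → R) × R => a.1 j.succ))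

theorem differentiable_ofP {k : ℕ} : Differentiable ℂ (ofP : (Fin k → ℂ) × ℂ → (Option (Fin k) → ℂ)) := by
  rw [differentiable_pi]
  intro o
  cases o with
  | none => exact differentiable_snd
  | some j => exact (by fun_prop : Differentiable ℂ (fun a : (Fin k → ℂ) × ℂ => a.1 j))

theorem differentiable_toQ {k : ℕ} :
    Differentiable ℂ (toQ : (Option (Option (Fin k)) → ℂ) → (Fin (k + 1) → ℂ) × ℂ) := by
  refine Differentiable.prodMk ?_ (differentiable_apply _)
  rw [differentiable_pi]
  intro j
  refine Fin.cases ?_ (fun i => ?_) j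
  · simp only [Fin.cons_zero]; exact differentiable_apply _
  · simp only [Fin.cons_succ]; exact differentiable_apply _

theorem reP_toQ {k : ℕ} (x : Option (Option (Fin k)) → ℂ) : reP (toQ x) = toQ (fun o => (x o).re) := by
  refine Prod.ext ?_ rfl
  funext j
  refine Fin.cases ?_ (fun i => ?_) j <;> rfl

theorem imP_toQ {k : ℕ} (x : Option (Option (Fin k)) → ℂ) : imP (toQ x) = toQ (fun o => (x o).im) := by
  refine Prod.ext ?_ rfl
  funext j
  refine Fin.cases ?_ (fun i => ?_) j <;> rfl

theorem norm_toQ_le {k : ℕ} (y : Option (Option (Fin k)) → ℝ) : ‖toQ y‖ ≤ ‖y‖ := by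
  rw [Prod.norm_def]
  apply max_le
  · rw [pi_norm_le_iff_of_nonneg (norm_nonneg _)]
    intro j
    refine Fin.cases ?_ (fun i => ?_) j
    · exact norm_le_pi_norm y none
    · exact norm_le_pi_norm y (some (some i))
  · exact norm_le_pi_norm y (some none)

theorem norm_ofP_le {k : ℕ} (y : (Fin k → ℝ) × ℝ) : ‖ofP y‖ ≤ ‖y‖ := by
  rw [pi_norm_le_iff_of_nonneg (norm_nonneg _)]
  intro o
  cases o with
  | none => exact norm_snd_le y
  | some j => exact (norm_le_pi_norm y.1 j).trans (norm_fst_le y)

theorem re_ofP {k : ℕ} (z : (Fin k → ℂ) × ℂ) : (fun o => (ofP z o).re) = ofP (reP z) := by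
  funext o; cases o <;> rfl

theorem im_ofP {k : ℕ} (z : (Fin k → ℂ) × ℂ) : (fun o => (ofP z o).im) = ofP (imP z) := by
  funext o; cases o <;> rfl

/-- the polar factors involving the first variable -/
noncomputable def fac {k : ℕ} (J : Finset (Fin k)) (x : Option (Option (Fin k)) → ℂ) : ℂ :=
  x (some none) - ((J.card : ℂ) + 1) / 2 + (x none + ∑ j ∈ J, x (some (some j))) - 1

/-- their real version -/
noncomputable def facR {k : ℕ} (J : Finset (Fin k)) (x : Option (Option (Fin k)) → ℝ) : ℝ :=
  x (some none) - ((J.card : ℝ) + 1) / 2 + (x none + ∑ j ∈ J, x (some (some j))) - 1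

theorem fac_re {k : ℕ} (J : Finset (Fin k)) (x : Option (Option (Fin k)) → ℂ) :
    (fac J x).re = facR J (fun o => (x o).re) := by
  unfold fac facR
  have : (((J.card : ℂ) + 1) / 2).re = ((J.card : ℝ) + 1) / 2 := by
    have : (((J.card : ℂ) + 1) / 2) = ((((J.card : ℝ) + 1) / 2 : ℝ) : ℂ) := by push_cast; ring
    rw [this, Complex.ofReal_re]
  simp only [Complex.sub_re, Complex.add_re, Complex.re_sum, Complex.one_re, this]

theorem continuous_facR {k : ℕ} (J : Finset (Fin k)) : Continuous (facR J) := by
  unfold facR; fun_prop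

theorem differentiable_fac {k : ℕ} (J : Finset (Fin k)) : Differentiable ℂ (fac J) := by
  unfold fac; fun_prop

theorem sig_insert {k : ℕ} (J : Finset (Fin k)) (x : Option (Option (Fin k)) → ℂ) :
    sig (insert 0 (J.image Fin.succ)) (toQ x) - 1 = fac J x := by
  have h0 : (0 : Fin (k + 1)) ∉ J.image Fin.succ := by simp [Fin.succ_ne_zero]
  unfold sig fac
  rw [Finset.card_insert_of_notMem h0, Finset.card_image_of_injective _ (Fin.succ_injective k),
    Finset.sum_insert h0, Finset.sum_image (fun a _ b _ h => Fin.succ_injective k h)]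
  simp [toQ]

theorem sig_image {k : ℕ} (J : Finset (Fin k)) (x : Option (Option (Fin k)) → ℂ) :
    sig (J.image Fin.succ) (toQ x) = sig J (toP (fun o => x (some o))) := by
  unfold sig
  rw [Finset.card_image_of_injective _ (Fin.succ_injective k),
    Finset.sum_image (fun a _ b _ h => Fin.succ_injective k h)]
  simp [toQ, toP]

/-- convexity of the half spaces -/
theorem convex_facR {k : ℕ} (J : Finset (Fin k)) : Convex ℝ {x | 0 < facR J x} := by
  intro x hx y hy a b ha hb hab
  have h1 : facR J (a • x + b • y) = a * facR J x + b * facR J y := by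
    unfold facR
    simp only [Pi.add_apply, Pi.smul_apply, smul_eq_mul, Finset.sum_add_distrib, ← Finset.mul_sum]
    have : b = 1 - a := by linarith
    rw [this]
    ring
  show 0 < facR J (a • x + b • y)
  rw [h1]
  have hx' : 0 < facR J x := hx
  have hy' : 0 < facR J y := hy
  rcases eq_or_lt_of_le ha with h | h
  · have hb1 : b = 1 := by linarith
    rw [← h, hb1]; linarith
  · have := mul_pos h hx'
    have := mul_nonneg hb hy'.le
    linarith

end Pool.Agent.MDS
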