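import Pool.Agent.MDS.GammaRatio
import Pool.Agent.MDS.Descent

set_option autoImplicit false

open Complex Filter Topology
open Pool.Agent.TubeDS

namespace Pool.Agent.MDS

/-- a locally dominated series of holomorphic functions of several variables -/
theorem differentiableOn_tsum_of_local {W α : Type*} [NormedAddCommGroup W] [NormedSpace ℂ W]
    {U : Set W} (hU : IsOpen U) {f : α → W → ℂ}
    (hdiff : ∀ a, DifferentiableOn ℂ (f a) U)
    (hbound : ∀ z₀ ∈ U, ∃ V ∈ 𝓝 z₀, ∃ b : α → ℝ, Summable b ∧ ∀ z ∈ V, ∀ a, ‖f a z‖ ≤ b a) :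
    DifferentiableOn ℂ (fun z => ∑' a, f a z) U := by
  intro z₀ hz₀
  obtain ⟨V, hV, b, hb, hfb⟩ := hbound z₀ hz₀
  obtain ⟨ε, hε, hball⟩ := Metric.mem_nhds_iff.mp (inter_mem hV (hU.mem_nhds hz₀))
  have hdiffball : ∀ a, DifferentiableOn ℂ (f a) (Metric.ball z₀ ε) := fun a =>
    (hdiff a).mono fun z hz => (hball hz).2
  have hsub : Metric.ball z₀ (ε / 2) ⊆ Metric.ball z₀ ε := Metric.ball_subset_ball (by linarith)
  have hz₀' : z₀ ∈ Metric.ball z₀ (ε / 2) := Metric.mem_ball_self (by linarith)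
  let _ : NormedSpace ℝ W := NormedSpace.restrictScalars ℝ ℂ W
  have key := hasFDerivAt_tsum_of_isPreconnected (𝕜 := ℂ) (u := fun a => b a / (ε / 4))
    (s := Metric.ball z₀ (ε / 2)) (f := f) (f' := fun a z => fderiv ℂ (f a) z) (x₀ := z₀) (x := z₀)
    (hb.div_const _) Metric.isOpen_ball (convex_ball z₀ (ε / 2)).isPreconnected
    (fun a x hx => ((hdiffball a).differentiableAt (Metric.isOpen_ball.mem_nhds (hsub hx))).hasFDerivAt)
    (fun a x hx => norm_fderiv_le_of_bound hε (hdiffball a) (fun y hy => hfb y (hball hy).1 a) hx)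
    hz₀' (Summable.of_norm_bounded hb fun a => hfb z₀ (hball (hsub hz₀')).1 a) hz₀'
  exact key.differentiableAt.differentiableWithinAt

open Classical in
/-- the entire continuation of `L(s, χ_d)` for a fundamental discriminant `d > 1` -/
noncomputable def Lc (d : ℕ) : ℂ → ℂ :=
  if h : IsFundDisc d ∧ 1 < d then Classical.choose (exists_Lc h.1 h.2) else 0

open Classical in
/-- the root number -/
noncomputable def eps (d : ℕ) : ℂ :=
  if h : IsFundDisc d ∧ 1 < d then Classical.choose (Classical.choose_spec (exists_Lc h.1 h.2)) else 0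

theorem Lc_spec {d : ℕ} (hd : IsFundDisc d) (h1 : 1 < d) :
    Differentiable ℂ (Lc d) ∧ (∀ s, 1 < s.re → Lc d s = L d s) ∧ (eps d) ^ 2 = 1 ∧
      (∀ s : ℂ, (∀ n : ℕ, s ≠ 2 * n + 1) → Lc d s = eps d * (d : ℂ) ^ (1 / 2 - s) * X s * Lc d (1 - s)) ∧
      (∀ s : ℂ, 0 < s.re → ‖Lc d s‖ ≤ d * (‖s‖ * zr (1 + s.re))) := by
  unfold Lc eps
  rw [dif_pos ⟨hd, h1⟩, dif_pos ⟨hd, h1⟩]
  exact Classical.choose_spec (Classical.choose_spec (exists_Lc hd h1))

theorem zr_anti {a b : ℝ} (ha : 1 < a) (hab : a ≤ b) : zr b ≤ zr a := by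
  unfold zr
  refine Summable.tsum_le_tsum ?_ (summable_zr (by linarith)) (summable_zr ha)
  intro n
  rcases Nat.eq_zero_or_pos n with rfl | hn
  · rw [Nat.cast_zero, Real.zero_rpow (by linarith), Real.zero_rpow (by linarith)]
  · have h1 : (1 : ℝ) ≤ n := by exact_mod_cast hn
    gcongr

theorem differentiable_prod {W ι : Type*} [NormedAddCommGroup W] [NormedSpace ℂ W] (u : Finset ι)
    (f : ι → W → ℂ) (h : ∀ i ∈ u, Differentiable ℂ (f i)) : Differentiable ℂ (fun z => ∏ i ∈ u, f i z) := by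
  classical
  induction u using Finset.induction_on with
  | empty => simp only [Finset.prod_empty]; exact differentiable_const _
  | insert a s ha ih =>
    have : (fun z => ∏ i ∈ insert a s, f i z) = fun z => f a z * ∏ i ∈ s, f i z := by
      funext z; rw [Finset.prod_insert ha]
    rw [this]
    exact (h a (Finset.mem_insert_self _ _)).mul (ih fun i hi => h i (Finset.mem_insert_of_mem hi))

theorem norm_le_of_abs {s : ℂ} {B : ℝ} (hB : 0 ≤ B) (h : |s.re| ≤ B) : ‖s‖ ≤ (B + 1) * (1 + |s.im|) := by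
  have h1 := Complex.norm_le_abs_re_add_abs_im s
  have h2 := abs_nonneg s.im
  nlinarith [mul_nonneg hB h2]

theorem Lc_local_bound (σ₀ : ℝ) : ∃ U ∈ 𝓝 σ₀, ∃ (C : ℝ) (N : ℕ), 0 ≤ C ∧
    ∀ d : ℕ, IsFundDisc d → 1 < d → ∀ s : ℂ, s.re ∈ U →
      ‖Lc d s‖ ≤ C * (d : ℝ) ^ (3 / 2 + |s.re|) * (1 + |s.im|) ^ N := by
  rcases lt_or_ge 0 σ₀ with hσ | hσ
  · -- positive real part
    have hpos : 0 < min (σ₀ / 2) 1 := lt_min (by linarith) one_pos
    refine ⟨Metric.ball σ₀ (min (σ₀ / 2) 1), Metric.ball_mem_nhds _ hpos,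
      (σ₀ + 2) * zr (1 + σ₀ / 2), 1, by have := zr_nonneg (1 + σ₀ / 2); positivity, ?_⟩
    intro d hd h1 s hs
    rw [Metric.mem_ball, Real.dist_eq, lt_min_iff] at hs
    obtain ⟨hs1, hs2⟩ := hs
    obtain ⟨h2, h3⟩ := abs_lt.mp hs1
    obtain ⟨h4, h5⟩ := abs_lt.mp hs2
    have hs0 : 0 < s.re := by linarith
    have e1 := (Lc_spec hd h1).2.2.2.2 s hs0
    have e2 : ‖s‖ ≤ (σ₀ + 1 + 1) * (1 + |s.im|) := norm_le_of_abs (by linarith) (by
      rw [abs_of_pos hs0]; linarith)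
    have e3 : zr (1 + s.re) ≤ zr (1 + σ₀ / 2) := zr_anti (by linarith) (by linarith)
    have hd1 : (1 : ℝ) ≤ d := by exact_mod_cast h1.le
    have e4 : (d : ℝ) ≤ (d : ℝ) ^ (3 / 2 + |s.re|) := by
      calc (d : ℝ) = (d : ℝ) ^ (1 : ℝ) := (Real.rpow_one _).symm
        _ ≤ _ := Real.rpow_le_rpow_of_exponent_le hd1 (by have := abs_nonneg s.re; linarith)
    have e5 := zr_nonneg (1 + s.re)
    have e6 := zr_nonneg (1 + σ₀ / 2)
    calc ‖Lc d s‖ ≤ d * (‖s‖ * zr (1 + s.re)) := e1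
      _ ≤ (d : ℝ) ^ (3 / 2 + |s.re|) * (((σ₀ + 1 + 1) * (1 + |s.im|)) * zr (1 + σ₀ / 2)) := by gcongr
      _ = _ := by ring
  · obtain ⟨U, hU, C, N, hC, hX⟩ := X_local_bound σ₀ (fun n h => by
      have : (0 : ℝ) ≤ n := Nat.cast_nonneg n
      linarith)
    refine ⟨U ∩ Metric.ball σ₀ (1 / 2), inter_mem hU (Metric.ball_mem_nhds _ (by norm_num)),
      C * ((|σ₀| + 3) * zr (3 / 2)), N + 1, by have := zr_nonneg (3 / 2); positivity, ?_⟩
    rintro d hd h1 s ⟨hs1, hs2⟩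
    rw [Metric.mem_ball, Real.dist_eq] at hs2
    obtain ⟨h2, h3⟩ := abs_lt.mp hs2
    obtain ⟨_, _, h6, h7, h8⟩ := Lc_spec hd h1
    have hsne : ∀ n : ℕ, s ≠ 2 * n + 1 := by
      intro n h
      have := congrArg Complex.re h
      simp at this
      have h9 : (0 : ℝ) ≤ n := Nat.cast_nonneg n
      linarith
    have hre : (1 - s).re = 1 - s.re := by simp
    have him : |(1 - s).im| = |s.im| := by simp
    have e1 := h8 (1 - s) (by rw [hre]; linarith)
    have e2 : ‖1 - s‖ ≤ (|σ₀| + 2 + 1) * (1 + |s.im|) := by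
      rw [← him]
      apply norm_le_of_abs (by positivity)
      rw [hre, abs_of_pos (by linarith)]
      have := neg_abs_le σ₀
      linarith
    have e3 : zr (1 + (1 - s).re) ≤ zr (3 / 2) := zr_anti (by norm_num) (by rw [hre]; linarith)
    have heps : ‖eps d‖ = 1 := by
      have := congrArg norm h6
      rw [norm_pow, norm_one] at this
      exact (pow_eq_one_iff_of_nonneg (norm_nonneg _) two_ne_zero).mp this
    have hd0 : (0 : ℝ) < d := by exact_mod_cast (by omega : 0 < d)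
    have hd1 : (1 : ℝ) ≤ d := by exact_mod_cast h1.le
    have e4 : ‖(d : ℂ) ^ (1 / 2 - s)‖ = (d : ℝ) ^ (1 / 2 - s.re) := by
      have := norm_cpow_eq_rpow_re_of_pos hd0 (1 / 2 - s)
      simpa using this
    have e5 : (d : ℝ) ^ (1 / 2 - s.re) * d ≤ (d : ℝ) ^ (3 / 2 + |s.re|) := by
      calc (d : ℝ) ^ (1 / 2 - s.re) * d = (d : ℝ) ^ (1 / 2 - s.re) * (d : ℝ) ^ (1 : ℝ) := by rw [Real.rpow_one]
        _ = (d : ℝ) ^ (1 / 2 - s.re + 1) := (Real.rpow_add hd0 _ _).symm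
        _ ≤ _ := Real.rpow_le_rpow_of_exponent_le hd1 (by have := neg_abs_le s.re; linarith)
    have e6 := hX s hs1
    have e7 := zr_nonneg (1 + (1 - s).re)
    have e8 := zr_nonneg (3 / 2)
    rw [h7 s hsne, norm_mul, norm_mul, norm_mul, heps, one_mul, e4]
    calc (d : ℝ) ^ (1 / 2 - s.re) * ‖X s‖ * ‖Lc d (1 - s)‖
        ≤ (d : ℝ) ^ (1 / 2 - s.re) * (C * (1 + |s.im|) ^ N) *
          (d * (((|σ₀| + 2 + 1) * (1 + |s.im|)) * zr (3 / 2))) := by
          gcongr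
          refine e1.trans ?_
          gcongr
      _ = ((d : ℝ) ^ (1 / 2 - s.re) * d) * (C * ((|σ₀| + 3) * zr (3 / 2))) * ((1 + |s.im|) ^ N * (1 + |s.im|)) := by ring
      _ ≤ (d : ℝ) ^ (3 / 2 + |s.re|) * (C * ((|σ₀| + 3) * zr (3 / 2))) * ((1 + |s.im|) ^ N * (1 + |s.im|)) := by
          gcongr
      _ = _ := by ring

/-- the terms of the continued series -/
noncomputable def tm (k M d : ℕ) (z : Option (Fin k) → ℂ) : ℂ :=
  (kron d M : ℂ) * (d : ℂ) ^ (-(z none)) * ∏ j, Lc d (z (some j))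

/-- a region where the continued series converges -/
def R0 (k : ℕ) : Set (Option (Fin k) → ℝ) := {x | 1 + ∑ j, (3 / 2 + |x (some j)|) < x none}

theorem isOpen_R0 (k : ℕ) : IsOpen (R0 k) := isOpen_lt (by fun_prop) (by fun_prop)

theorem convex_R0 (k : ℕ) : Convex ℝ (R0 k) := by
  intro x hx y hy a b ha hb hab
  simp only [R0, Set.mem_ofPred_eq] at hx hy ⊢
  have h1 : ∀ j : Fin k, 3 / 2 + |(a • x + b • y) (some j)| ≤ a * (3 / 2 + |x (some j)|) + b * (3 / 2 + |y (some j)|) := by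
    intro j
    simp only [Pi.add_apply, Pi.smul_apply, smul_eq_mul]
    have := abs_add_le (a * x (some j)) (b * y (some j))
    rw [abs_mul, abs_mul, abs_of_nonneg ha, abs_of_nonneg hb] at this
    nlinarith
  have h2 : ∑ j : Fin k, (3 / 2 + |(a • x + b • y) (some j)|) ≤
      a * ∑ j, (3 / 2 + |x (some j)|) + b * ∑ j, (3 / 2 + |y (some j)|) := by
    rw [Finset.mul_sum, Finset.mul_sum, ← Finset.sum_add_distrib]
    exact Finset.sum_le_sum fun j _ => h1 j
  have h3 : (a • x + b • y) none = a * x none + b * y none := by simp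
  rw [h3]
  rcases eq_or_lt_of_le ha with h | h
  · have hb1 : b = 1 := by linarith
    subst hb1
    rw [← h] at h2 ⊢
    linarith
  · have h4 := mul_lt_mul_of_pos_left hx h
    have h5 := mul_le_mul_of_nonneg_left hy.le hb
    nlinarith

theorem tm_local_bound {k : ℕ} {x₀ : Option (Fin k) → ℝ} (hx₀ : x₀ ∈ R0 k) :
    ∃ U ∈ 𝓝 x₀, ∃ (C : ℝ) (N : ℕ) (δ : ℝ), 0 ≤ C ∧ 0 < δ ∧
      ∀ M d : ℕ, IsFundDisc d → 1 < d → ∀ z : Option (Fin k) → ℂ, (fun j => (z j).re) ∈ U →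
        ‖tm k M d z‖ ≤ C * ((d : ℝ) ^ (1 + δ))⁻¹ * (1 + ‖fun j => (z j).im‖) ^ N := by
  choose U hU C N hC hb using fun j : Fin k => Lc_local_bound (x₀ (some j))
  simp only [R0, Set.mem_ofPred_eq] at hx₀
  set δ : ℝ := (x₀ none - (1 + ∑ j, (3 / 2 + |x₀ (some j)|))) / 2 with hδ
  have hδ0 : 0 < δ := by rw [hδ]; linarith
  have h1 : ∀ᶠ x in 𝓝 x₀, ∀ j, x (some j) ∈ U j := by
    rw [eventually_all]
    intro j
    exact (continuous_apply (some j)).continuousAt.eventually (hU j)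
  have h2 : ∀ᶠ x : Option (Fin k) → ℝ in 𝓝 x₀, 1 + ∑ j, (3 / 2 + |x (some j)|) + δ < x none := by
    have c1 : Continuous fun x : Option (Fin k) → ℝ => 1 + ∑ j, (3 / 2 + |x (some j)|) + δ := by fun_prop
    have c2 : Continuous fun x : Option (Fin k) → ℝ => x none := by fun_prop
    apply ContinuousAt.eventually_lt c1.continuousAt c2.continuousAt
    rw [hδ]; linarith
  refine ⟨_, h1.and h2, ∏ j, C j, ∑ j, N j, δ, Finset.prod_nonneg fun j _ => hC j, hδ0, ?_⟩
  rintro M d hd hd1 z ⟨hz1, hz2⟩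
  have hd0 : (0 : ℝ) < d := by exact_mod_cast (by omega : 0 < d)
  have hd1' : (1 : ℝ) ≤ d := by exact_mod_cast hd1.le
  unfold tm
  rw [norm_mul, norm_mul, norm_prod, norm_cpow_neg (by omega)]
  have e1 := norm_kron_le d M
  set T := ‖fun j => (z j).im‖ with hT
  have hT0 : 0 ≤ T := norm_nonneg _
  have e2 : ∏ j : Fin k, ‖Lc d (z (some j))‖ ≤
      ∏ j : Fin k, (C j * (d : ℝ) ^ (3 / 2 + |(z (some j)).re|) * (1 + T) ^ (N j)) := by
    apply Finset.prod_le_prod
    · intro j _; exact norm_nonneg _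
    · intro j _
      refine (hb j d hd hd1 (z (some j)) (hz1 j)).trans ?_
      have e3 : |(z (some j)).im| ≤ T := norm_le_pi_norm (fun j => (z j).im) (some j)
      have e4 := hC j
      gcongr
  rw [Finset.prod_mul_distrib, Finset.prod_mul_distrib, Finset.prod_pow_eq_pow_sum,
    ← Real.rpow_sum_of_pos hd0] at e2
  have e5 : ((d : ℝ) ^ (z none).re)⁻¹ * (d : ℝ) ^ (∑ j : Fin k, (3 / 2 + |(z (some j)).re|)) ≤
      ((d : ℝ) ^ (1 + δ))⁻¹ := by
    rw [← Real.rpow_neg hd0.le, ← Real.rpow_neg hd0.le, ← Real.rpow_add hd0]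
    apply Real.rpow_le_rpow_of_exponent_le hd1'
    simp only at hz2
    linarith
  have hCp : 0 ≤ ∏ j, C j := Finset.prod_nonneg fun j _ => hC j
  calc ‖(kron d M : ℂ)‖ * ((d : ℝ) ^ (z none).re)⁻¹ * ∏ j : Fin k, ‖Lc d (z (some j))‖
      ≤ 1 * ((d : ℝ) ^ (z none).re)⁻¹ * ((∏ j, C j) * (d : ℝ) ^ (∑ j : Fin k, (3 / 2 + |(z (some j)).re|)) *
        (1 + T) ^ (∑ j, N j)) := by gcongr
    _ = (∏ j, C j) * (((d : ℝ) ^ (z none).re)⁻¹ * (d : ℝ) ^ (∑ j : Fin k, (3 / 2 + |(z (some j)).re|))) *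
        (1 + T) ^ (∑ j, N j) := by ring
    _ ≤ _ := by gcongr

theorem differentiable_tm {k M d : ℕ} (hd : IsFundDisc d) (h1 : 1 < d) : Differentiable ℂ (tm k M d) := by
  unfold tm
  have hd0 : (d : ℂ) ≠ 0 := by exact_mod_cast (by omega : d ≠ 0)
  apply Differentiable.mul
  · apply Differentiable.const_mul
    apply Differentiable.const_cpow (by fun_prop) (Or.inl hd0)
  · apply differentiable_prod
    intro j _
    exact (Lc_spec hd h1).1.comp (by fun_prop : Differentiable ℂ (fun z : Option (Fin k) → ℂ => z (some j)))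

/-- fundamental discriminants larger than `1` -/
abbrev FD : Type := {d : ℕ // IsFundDisc d ∧ 1 < d}

/-- the continued series without the term `d = 1` -/
noncomputable def E (k M : ℕ) (z : Option (Fin k) → ℂ) : ℂ := ∑' d : FD, tm k M d z

theorem summable_FD {δ : ℝ} (hδ : 0 < δ) : Summable (fun d : FD => (((d : ℕ) : ℝ) ^ (1 + δ))⁻¹) :=
  (summable_zr (σ := 1 + δ) (by linarith)).comp_injective Subtype.val_injective

theorem summable_tm {k M : ℕ} {z : Option (Fin k) → ℂ} (hz : (fun j => (z j).re) ∈ R0 k) :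
    Summable (fun d : FD => tm k M d z) := by
  obtain ⟨U, hU, C, N, δ, hC, hδ, hb⟩ := tm_local_bound hz
  exact Summable.of_norm_bounded (((summable_FD hδ).mul_left C).mul_right _)
    (fun d => hb M d d.2.1 d.2.2 z (mem_of_mem_nhds hU))

theorem differentiableOn_E (k M : ℕ) : DifferentiableOn ℂ (E k M) (tube (R0 k)) := by
  unfold E
  apply differentiableOn_tsum_of_local (isOpen_tube (isOpen_R0 k))
  · intro d
    exact (differentiable_tm d.2.1 d.2.2).differentiableOn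
  · intro z₀ hz₀
    obtain ⟨U, hU, C, N, δ, hC, hδ, hb⟩ := tm_local_bound
      (show (fun j => (z₀ j).re) ∈ R0 k from hz₀)
    have h1 : {z : Option (Fin k) → ℂ | (fun j => (z j).re) ∈ U} ∈ 𝓝 z₀ :=
      continuous_rePart.continuousAt.preimage_mem_nhds hU
    have h2 : {z : Option (Fin k) → ℂ | ‖fun j => (z j).im‖ < ‖fun j => (z₀ j).im‖ + 1} ∈ 𝓝 z₀ :=
      ((continuous_imPart.norm).continuousAt.eventually_lt continuousAt_const (by simp))
    refine ⟨_, inter_mem h1 h2, fun d : FD => C * (((d : ℕ) : ℝ) ^ (1 + δ))⁻¹ * (1 + (‖fun j => (z₀ j).im‖ + 1)) ^ N,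
      ((summable_FD hδ).mul_left C).mul_right _, ?_⟩
    rintro z ⟨hz1, hz2⟩ d
    refine (hb M d d.2.1 d.2.2 z hz1).trans ?_
    simp only [Set.mem_ofPred_eq] at hz2
    exact mul_le_mul_of_nonneg_left (pow_le_pow_left₀ (by positivity) (by linarith) N) (by positivity)

theorem polyBdd_E (k M : ℕ) : PolyBdd (R0 k) (E k M) := by
  apply polyBdd_of_local
  intro x₀ hx₀
  obtain ⟨U, hU, C, N, δ, hC, hδ, hb⟩ := tm_local_bound hx₀
  refine ⟨U, hU, ∑' d : FD, C * (((d : ℕ) : ℝ) ^ (1 + δ))⁻¹, N, tsum_nonneg fun d => by positivity, ?_⟩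
  intro z hz
  have h1 : ∀ d : FD, ‖tm k M d z‖ ≤ C * (((d : ℕ) : ℝ) ^ (1 + δ))⁻¹ * (1 + ‖fun j => (z j).im‖) ^ N :=
    fun d => hb M d d.2.1 d.2.2 z hz
  have h2 := ((summable_FD hδ).mul_left C).mul_right ((1 + ‖fun j => (z j).im‖) ^ N)
  have h3 : Summable fun d : FD => ‖tm k M d z‖ := Summable.of_nonneg_of_le (fun _ => norm_nonneg _) h1 h2
  unfold E
  refine (norm_tsum_le_tsum_norm h3).trans ?_
  rw [← tsum_mul_right]
  exact Summable.tsum_le_tsum h1 h3 h2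

end Pool.Agent.MDS
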