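import Mathlib

/-!
# The multiple Dirichlet series of quadratic L-functions: definitions
-/

set_option autoImplicit false

namespace Pool.Agent.MDS

/-- `d` is a positive fundamental discriminant: either `d` is squarefree and `1` modulo `4`
(this includes `d = 1`), or `d = 4 m` with `m` squarefree and `m` congruent to `2` or `3`
modulo `4`. -/
def IsFundDisc (d : ℕ) : Prop :=
  (d % 4 = 1 ∧ Squarefree d) ∨ ∃ m : ℕ, d = 4 * m ∧ (m % 4 = 2 ∨ m % 4 = 3) ∧ Squarefree m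

/-- The Kronecker symbol `(d / n)` for `n ≥ 1`. The exponent of `2` in `n` contributes a power of
`(d / 2)`, which is `0` for even `d`, `1` for `d` congruent to `1, 7` and `-1` for `d` congruent to
`3, 5` modulo `8`; the odd part of `n` contributes the Jacobi symbol. -/
def kron (d n : ℕ) : ℤ :=
  ZMod.χ₈ (d : ZMod 8) ^ (n.factorization 2) * jacobiSym (d : ℤ) (n / 2 ^ n.factorization 2)

/-- `L(s, χ_d)` for `Re s > 1`. -/
noncomputable def L (d : ℕ) (s : ℂ) : ℂ := LSeries (fun n => (kron d n : ℂ)) s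

/-- The series `A_M(s_1, ..., s_k; w)`, summed over the positive fundamental discriminants. -/
noncomputable def A (k M : ℕ) (s : Fin k → ℂ) (w : ℂ) : ℂ :=
  ∑' d : {d : ℕ // IsFundDisc d}, (kron d M : ℂ) * (d : ℂ) ^ (-w) * ∏ j, L d (s j)

/-- `σ_J(w) = w - |J| / 2 + ∑_{j ∈ J} s_j`. -/
noncomputable def sig {k : ℕ} (J : Finset (Fin k)) (z : (Fin k → ℂ) × ℂ) : ℂ :=
  z.2 - (J.card : ℂ) / 2 + ∑ j ∈ J, z.1 j

/-- The function `F_M(s_1, ..., s_k; w)` at the point `z = ((s_1, ..., s_k), w)`, in the region of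
absolute convergence. -/
noncomputable def F (k M : ℕ) (z : (Fin k → ℂ) × ℂ) : ℂ :=
  (A k M z.1 z.2 - ∏ j, riemannZeta (z.1 j)) * ∏ J : Finset (Fin k), (sig J z - 1)

/-- real parts of the coordinates -/
def reP {k : ℕ} (z : (Fin k → ℂ) × ℂ) : (Fin k → ℝ) × ℝ := (fun j => (z.1 j).re, z.2.re)

/-- imaginary parts of the coordinates -/
def imP {k : ℕ} (z : (Fin k → ℂ) × ℂ) : (Fin k → ℝ) × ℝ := (fun j => (z.1 j).im, z.2.im)

/-- `G` is a holomorphic function on the tube domain `{z : Re z ∈ Ω}` which agrees with `F_M` where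
all of `Re s_j` and `Re w` exceed `1`. -/
def IsExtension (k M : ℕ) (Ω : Set ((Fin k → ℝ) × ℝ)) (G : (Fin k → ℂ) × ℂ → ℂ) : Prop :=
  DifferentiableOn ℂ G {z | reP z ∈ Ω} ∧
    ∀ z : (Fin k → ℂ) × ℂ, (∀ j, 1 < (z.1 j).re) → 1 < z.2.re → G z = F k M z

/-- `Ω` is open and connected, contains all points with every coordinate larger than `1`, and
contains the point `(1/2, ..., 1/2, 1)`. -/
def IsBase (k : ℕ) (Ω : Set ((Fin k → ℝ) × ℝ)) : Prop :=
  IsOpen Ω ∧ IsConnected Ω ∧ {x | (∀ j, 1 < x.1 j) ∧ 1 < x.2} ⊆ Ω ∧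
    ((fun _ => 1 / 2, 1) : (Fin k → ℝ) × ℝ) ∈ Ω

/-- The assertion of Q1 for the given `k` and `M`: `F_M` extends holomorphically from its region of
absolute convergence to a tube domain containing `(1/2, ..., 1/2, 1)`, and the extension is
polynomially bounded in vertical strips. -/
def Continues (k M : ℕ) : Prop :=
  ∃ Ω : Set ((Fin k → ℝ) × ℝ), IsBase k Ω ∧ ∃ G : (Fin k → ℂ) × ℂ → ℂ, IsExtension k M Ω G ∧
    ∀ K ⊆ Ω, IsCompact K → ∃ (C : ℝ) (N : ℕ), ∀ z, reP z ∈ K → ‖G z‖ ≤ C * (1 + ‖imP z‖) ^ N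

/-- The form of Q1 for the given `k` which is uniform in `M`: all the functions `F_M` extend to one
and the same tube domain containing `(1/2, ..., 1/2, 1)`, and on it the extensions are bounded in
vertical strips by a polynomial in `M` and the imaginary parts. -/
def ContinuesUniformly (k : ℕ) : Prop :=
  ∃ Ω : Set ((Fin k → ℝ) × ℝ), IsBase k Ω ∧ ∃ G : ℕ → (Fin k → ℂ) × ℂ → ℂ,
    (∀ M, 1 ≤ M → IsExtension k M Ω (G M)) ∧
    ∀ K ⊆ Ω, IsCompact K → ∃ (C : ℝ) (N : ℕ), ∀ M : ℕ, 1 ≤ M → ∀ z, reP z ∈ K →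
      ‖G M z‖ ≤ C * (M : ℝ) ^ N * (1 + ‖imP z‖) ^ N

end Pool.Agent.MDS
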