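import Pool.Agent.MDS.Descent

set_option autoImplicit false
set_option linter.unusedVariables false

open Filter Topology
open Pool.Agent.TubeDS

namespace Pool.Agent.MDS

/-- The descent step in the form needed: from an extension of `F_M` in `k + 1` variables to
extensions, uniform in `n`, of all `F_{Mn}` in `k` variables. The base points are general:
any real point `(σ, w₀)` in the original domain gives a point in the new one. -/
theorem descent {k M : ℕ} (hM : 1 ≤ M) (h : Continues (k + 1) M) :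
    ∃ Ω : Set ((Fin k → ℝ) × ℝ), IsBase k Ω ∧ ∃ G : ℕ → (Fin k → ℂ) × ℂ → ℂ,
      (∀ n, 1 ≤ n → IsExtension k (M * n) Ω (G n)) ∧
      ∀ K ⊆ Ω, IsCompact K → ∃ (C : ℝ) (N : ℕ), ∀ n : ℕ, 1 ≤ n → ∀ z, reP z ∈ K →
        ‖G n z‖ ≤ C * (n : ℝ) ^ N * (1 + ‖imP z‖) ^ N := by
  obtain ⟨Ω, ⟨hΩo, hΩc, hΩreg, hΩcen⟩, G, ⟨hGd, hGF⟩, hGb⟩ := h
  -- transport to functions on `Option (Option (Fin k))`
  set Ω₁ : Set (Option (Option (Fin k)) → ℝ) := toQ ⁻¹' Ω with hΩ₁
  have hΩ₁o : IsOpen Ω₁ := hΩo.preimage continuous_toQ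
  have hΩ₁im : Ω₁ = ofQ '' Ω := by
    ext x
    constructor
    · intro hx; exact ⟨toQ x, hx, ofQ_toQ x⟩
    · rintro ⟨p, hp, rfl⟩; show toQ (ofQ p) ∈ Ω; rw [toQ_ofQ]; exact hp
  have hΩ₁pre : IsPreconnected Ω₁ := by
    rw [hΩ₁im]; exact hΩc.isPreconnected.image _ continuous_ofQ.continuousOn
  have hΩ₁ne : Ω₁.Nonempty := by
    rw [hΩ₁im]; exact hΩc.nonempty.image _
  set G₁ : (Option (Option (Fin k)) → ℂ) → ℂ := fun z => G (toQ z) with hG₁
  have hG₁d : DifferentiableOn ℂ G₁ (tube Ω₁) := by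
    refine hGd.comp differentiable_toQ.differentiableOn ?_
    intro z hz
    show reP (toQ z) ∈ Ω
    rw [reP_toQ]; exact hz
  have hG₁b : PolyBdd Ω₁ G₁ := by
    intro K hK hKc
    obtain ⟨C, N, hC⟩ := hGb (toQ '' K) (by rintro _ ⟨x, hx, rfl⟩; exact hK hx)
      (hKc.image continuous_toQ)
    refine ⟨|C|, N, fun z hz => ?_⟩
    have h1 := hC (toQ z) (by rw [reP_toQ]; exact ⟨_, hz, rfl⟩)
    rw [imP_toQ] at h1
    refine h1.trans ?_
    have h2 := norm_toQ_le (fun o => (z o).im)
    have h3 := le_abs_self C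
    gcongr
  obtain ⟨G₂, hG₂d, hG₂e, hG₂b⟩ := bochner hΩ₁o hΩ₁pre hΩ₁ne hG₁d hG₁b
  set C₁ : Set (Option (Option (Fin k)) → ℝ) := convexHull ℝ Ω₁ with hC₁
  have hC₁o : IsOpen C₁ := hΩ₁o.convexHull
  have hC₁c : Convex ℝ C₁ := convex_convexHull ℝ Ω₁
  have hsub : Ω₁ ⊆ C₁ := subset_convexHull ℝ Ω₁
  -- the domain where the polar factors have positive real part
  set C₂ : Set (Option (Option (Fin k)) → ℝ) := C₁ ∩ ⋂ J : Finset (Fin k), {x | 0 < facR J x} with hC₂
  have hC₂o : IsOpen C₂ := by
    refine hC₁o.inter (isOpen_iInter_of_finite fun J => ?_)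
    exact isOpen_lt continuous_const (continuous_facR J)
  have hC₂c : Convex ℝ C₂ := hC₁c.inter (convex_iInter fun J => convex_facR J)
  set H : (Option (Option (Fin k)) → ℂ) → ℂ := fun z => G₂ z * (∏ J : Finset (Fin k), fac J z)⁻¹ with hH
  have hfacne : ∀ z ∈ tube C₂, ∀ J, fac J z ≠ 0 := by
    intro z hz J h0
    have h1 : 0 < facR J (fun o => (z o).re) := by
      have := hz.2
      exact Set.mem_iInter.mp this J
    rw [← fac_re, h0] at h1
    simp at h1
  have hHd : DifferentiableOn ℂ H (tube C₂) := by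
    have h1 : DifferentiableOn ℂ G₂ (tube C₂) := hG₂d.mono fun z hz => hz.1
    refine h1.mul (DifferentiableOn.fun_inv ?_ ?_)
    · have hp : Differentiable ℂ (fun z : Option (Option (Fin k)) → ℂ => ∏ J : Finset (Fin k), fac J z) := by
        unfold fac; fun_prop
      exact hp.differentiableOn
    · intro z hz
      exact Finset.prod_ne_zero_iff.mpr fun J _ => hfacne z hz J
  have hHb : PolyBdd C₂ H := by
    intro K hK hKc
    obtain ⟨C, N, hC⟩ := hG₂b K (hK.trans Set.inter_subset_left) hKc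
    obtain ⟨B, hB⟩ : ∃ B, ∀ x ∈ K, (∏ J : Finset (Fin k), facR J x)⁻¹ ≤ B := by
      have hcont : ContinuousOn (fun x => (∏ J : Finset (Fin k), facR J x)⁻¹) K := by
        refine ContinuousOn.inv₀ ?_ ?_
        · exact (continuous_finsetProd _ fun J _ => continuous_facR J).continuousOn
        · intro x hx
          refine Finset.prod_ne_zero_iff.mpr fun J _ => ?_
          have := Set.mem_iInter.mp (hK hx).2 J
          exact ne_of_gt this
      obtain ⟨B, hB⟩ := (hKc.image_of_continuousOn hcont).bddAbove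
      exact ⟨B, fun x hx => hB ⟨x, hx, rfl⟩⟩
    refine ⟨|C| * |B|, N, fun z hz => ?_⟩
    have hpos : ∀ J, 0 < facR J (fun o => (z o).re) := fun J => Set.mem_iInter.mp (hK hz).2 J
    have h1 := hC z hz
    have h2 : ‖(∏ J : Finset (Fin k), fac J z)⁻¹‖ ≤ |B| := by
      rw [norm_inv, norm_prod]
      refine le_trans ?_ ((hB _ hz).trans (le_abs_self B))
      apply inv_anti₀ (Finset.prod_pos fun J _ => hpos J)
      refine Finset.prod_le_prod (fun J _ => (hpos J).le) fun J _ => ?_
      rw [← fac_re]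
      exact Complex.re_le_norm _
    rw [hH]
    simp only
    rw [norm_mul]
    have h3 := le_abs_self C
    calc ‖G₂ z‖ * ‖(∏ J : Finset (Fin k), fac J z)⁻¹‖
        ≤ (|C| * (1 + ‖fun j => (z j).im‖) ^ N) * |B| := by
          gcongr
          refine h1.trans ?_
          gcongr
      _ = _ := by ring
  -- the coefficients
  set a : ℕ → (Option (Fin k) → ℂ) → ℂ := fun m z => if m = 0 then 0 else F k (M * m) (toP z) with ha
  set O : Set (Option (Fin k) → ℝ) := {x | ∀ o, 1 < x o} with hO
  -- points with all coordinates > 1 and first coordinate 2 are in C₂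
  have hreg : ∀ x : Option (Option (Fin k)) → ℝ, (∀ o, 1 < x o) → x ∈ Ω₁ := by
    intro x hx
    apply hΩreg
    refine ⟨fun j => ?_, hx _⟩
    refine Fin.cases ?_ (fun i => ?_) j
    · exact hx none
    · exact hx (some (some i))
  have hfacreg : ∀ x : Option (Option (Fin k)) → ℝ, (∀ j, 1 / 2 ≤ x (some (some j))) → 1 ≤ x (some none) →
      1 < x none → ∀ J, 0 < facR J x := by
    intro x h1 h2 h3 J
    unfold facR
    have : (J.card : ℝ) / 2 ≤ ∑ j ∈ J, x (some (some j)) := by
      calc (J.card : ℝ) / 2 = ∑ _j ∈ J, (1 / 2 : ℝ) := by simp [div_eq_mul_inv]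
        _ ≤ _ := Finset.sum_le_sum fun j _ => h1 j
    linarith
  have hOslice : O ⊆ slice 2 C₂ := by
    intro x hx
    have h1 : ∀ o, 1 < ins (2 : ℝ) x o := by
      intro o
      cases o with
      | none => simp
      | some o' => exact hx o'
    refine ⟨hsub (hreg _ h1), Set.mem_iInter.mpr fun J => ?_⟩
    exact hfacreg _ (fun j => by have := hx (some j); simp only [ins_some]; linarith) (hx none).le
      (by simp) J
  have hcenslice : (ofP ((fun _ => 1 / 2, 1) : (Fin k → ℝ) × ℝ)) ∈ slice 2 C₂ := by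
    refine ⟨?_, Set.mem_iInter.mpr fun J => ?_⟩
    · -- convexity argument
      set P : Option (Option (Fin k)) → ℝ := ofQ ((fun _ => 1 / 2, 1) : (Fin (k + 1) → ℝ) × ℝ) with hP
      have hPΩ : P ∈ Ω₁ := by
        show toQ P ∈ Ω
        rw [hP, toQ_ofQ]; exact hΩcen
      obtain ⟨r, hr, hball⟩ := Metric.isOpen_iff.mp hΩ₁o P hPΩ
      set ε : ℝ := r / 2 with hε
      have hε0 : 0 < ε := by positivity
      set P' : Option (Option (Fin k)) → ℝ := fun o => P o - ε with hP'
      have hP'Ω : P' ∈ Ω₁ := by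
        apply hball
        rw [mem_ball_iff_norm]
        refine lt_of_le_of_lt ((pi_norm_le_iff_of_nonneg hε0.le).mpr fun o => ?_) (show ε < r by rw [hε]; linarith)
        simp [hP', abs_of_pos hε0]
      -- choose t
      set t : ℝ := min (1 / 2) (ε / 2) with ht
      have ht0 : 0 < t := lt_min (by norm_num) (by positivity)
      have ht1 : t ≤ 1 / 2 := min_le_left _ _
      have ht2 : t ≤ ε / 2 := min_le_right _ _
      set Q : Option (Option (Fin k)) → ℝ := ins (2 : ℝ) (ofP ((fun _ => 1 / 2, 1) : (Fin k → ℝ) × ℝ)) with hQ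
      set q : Option (Option (Fin k)) → ℝ := fun o => (Q o - (1 - t) * P' o) / t with hq
      have hPQ : ∀ o, P o ≤ Q o := by
        intro o
        cases o with
        | none => simp [hP, hQ, ofQ]; norm_num
        | some o' => cases o' with
          | none => simp [hP, hQ, ofQ, ofP]
          | some j => simp [hP, hQ, ofQ, ofP]
      have hPlow : ∀ o, 1 / 2 ≤ P o := by
        intro o
        cases o with
        | none => simp [hP, ofQ]
        | some o' => cases o' with
          | none => simp [hP, ofQ]; norm_num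
          | some j => simp [hP, ofQ]
      have hqΩ : q ∈ Ω₁ := by
        apply hreg
        intro o
        rw [hq]
        simp only
        rw [lt_div_iff₀ ht0, hP']
        simp only
        have h1 := hPQ o
        have h2 := hPlow o
        have h3 : 0 ≤ t * (P o - 1 / 2) := mul_nonneg ht0.le (by linarith)
        have h4 : t * ε ≤ (1 / 2) * ε := by gcongr
        nlinarith
      have hcomb : Q = (1 - t) • P' + t • q := by
        funext o
        simp only [Pi.add_apply, Pi.smul_apply, smul_eq_mul, hq]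
        field_simp
        ring
      show Q ∈ C₁
      rw [hcomb]
      exact hC₁c (hsub hP'Ω) (hsub hqΩ) (by linarith) ht0.le (by ring)
    · exact hfacreg _ (fun j => le_of_eq rfl) (le_of_eq rfl) (by simp) J
  -- the identity on the region
  have hkey : ∀ z ∈ tube O, ∀ t : ℝ, H (ins (2 + t * Complex.I) z) =
      ∑' m : ℕ, a m z * (m : ℂ) ^ (-(2 + t * Complex.I)) := by
    intro z hz t
    have hzre : ∀ o, 1 < (z o).re := hz
    set u : ℂ := 2 + t * Complex.I with hu
    have hure : u.re = 2 := by simp [hu]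
    set x : Option (Option (Fin k)) → ℂ := ins u z with hx
    have hxre : ∀ o, 1 < (x o).re := by
      intro o
      cases o with
      | none => show 1 < u.re; rw [hure]; norm_num
      | some o' => exact hzre o'
    have hxΩ : x ∈ tube Ω₁ := hreg _ hxre
    have hxC₂ : x ∈ tube C₂ := by
      have := hOslice hz
      show (fun j => (x j).re) ∈ C₂
      rw [hx, re_ins, hure]
      exact this
    have hGF' : G₂ x = F (k + 1) M (toQ x) := by
      rw [hG₂e hxΩ]
      apply hGF
      · intro j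
        refine Fin.cases ?_ (fun i => ?_) j
        · exact hxre none
        · exact hxre (some (some i))
      · exact hxre (some none)
    have hs : ∀ j, 1 < ((toP z).1 j).re := fun j => hzre (some j)
    have hw : 1 < (toP z).2.re := hzre none
    have hQ1 : (toQ x).1 = Fin.cons u (toP z).1 := rfl
    have hQ2 : (toQ x).2 = (toP z).2 := rfl
    rw [hH]
    simp only
    rw [hGF']
    unfold F
    rw [hQ1, hQ2, A_sub_succ (by omega) hs hw (by rw [hure]; norm_num),
      prod_finset_succ (fun J => sig J (toQ x) - 1)]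
    simp_rw [sig_insert, sig_image]
    have hne : (∏ J : Finset (Fin k), fac J x) ≠ 0 :=
      Finset.prod_ne_zero_iff.mpr fun J _ => hfacne x hxC₂ J
    have hxz : (fun o => x (some o)) = z := rfl
    rw [hxz, mul_assoc, mul_assoc, mul_inv_cancel₀ hne, mul_one, ← tsum_mul_right]
    refine tsum_congr fun m => ?_
    rw [ha]
    simp only
    split_ifs with hm
    · simp
    · unfold F; ring
  have hsum : ∀ z ∈ tube O, Summable (fun m : ℕ => ‖a m z‖ * ((m : ℝ) ^ 2)⁻¹) := by
    intro z hz
    have hzre : ∀ o, 1 < (z o).re := hz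
    have hs : ∀ j, 1 < ((toP z).1 j).re := fun j => hzre (some j)
    have hw : 1 < (toP z).2.re := hzre none
    set B : ℝ := ((∑' d : {d : ℕ // IsFundDisc d}, (((d : ℕ) : ℝ) ^ (toP z).2.re)⁻¹ *
      ∏ j, zr ((toP z).1 j).re) + ‖∏ j, riemannZeta ((toP z).1 j)‖) *
      ‖∏ J : Finset (Fin k), (sig J (toP z) - 1)‖ with hB
    have h0 : 0 ≤ ∑' d : {d : ℕ // IsFundDisc d}, (((d : ℕ) : ℝ) ^ (toP z).2.re)⁻¹ *
      ∏ j, zr ((toP z).1 j).re :=
      tsum_nonneg fun d => mul_nonneg (by positivity) (prod_zr_nonneg _)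
    have hB0 : 0 ≤ B := by positivity
    have hab : ∀ m, ‖a m z‖ ≤ B := by
      intro m
      rw [ha]
      simp only
      split_ifs with hm
      · simpa using hB0
      · unfold F
        rw [norm_mul, hB]
        gcongr
        exact (norm_sub_le _ _).trans (by gcongr; exact norm_A_le hs hw _)
    have hs2 : Summable (fun m : ℕ => ((m : ℝ) ^ 2)⁻¹) := Real.summable_nat_pow_inv.mpr (by norm_num)
    refine Summable.of_nonneg_of_le (fun m => by positivity) (fun m => ?_) (hs2.mul_left B)
    gcongr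
    exact hab m
  obtain ⟨E, hEd, hEa, hEb⟩ := extraction hC₂o hHd hHb a O hOslice (fun z => by simp [ha]) hsum hkey
  -- the final domain
  set Ω' : Set ((Fin k → ℝ) × ℝ) := ofP ⁻¹' (slice 2 C₂) with hΩ'
  have hΩ'conv : Convex ℝ Ω' := by
    intro p hp q hq α β hα hβ hαβ
    show ins 2 (ofP (α • p + β • q)) ∈ C₂
    have : ins (2 : ℝ) (ofP (α • p + β • q)) = α • ins (2 : ℝ) (ofP p) + β • ins (2 : ℝ) (ofP q) := by
      funext o
      cases o with
      | none =>
        simp only [ins_none, Pi.add_apply, Pi.smul_apply, smul_eq_mul]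
        linear_combination (-2 : ℝ) * hαβ
      | some o' => cases o' with
        | none => simp [ofP, ins]
        | some j => simp [ofP, ins]
    rw [this]
    exact hC₂c hp hq hα hβ hαβ
  have hcen' : ((fun _ => 1 / 2, 1) : (Fin k → ℝ) × ℝ) ∈ Ω' := hcenslice
  refine ⟨Ω', ⟨(isOpen_slice hC₂o).preimage continuous_ofP, ⟨⟨_, hcen'⟩, hΩ'conv.isPreconnected⟩, ?_, hcen'⟩,
    fun n z => E n (ofP z), ?_, ?_⟩
  · rintro p ⟨hp1, hp2⟩
    apply hOslice
    intro o
    cases o with
    | none => exact hp2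
    | some j => exact hp1 j
  · intro n hn
    refine ⟨?_, ?_⟩
    · refine (hEd n hn).comp differentiable_ofP.differentiableOn ?_
      intro z hz
      show (fun j => (ofP z j).re) ∈ slice 2 C₂
      rw [re_ofP]; exact hz
    · intro z hz1 hz2
      have hmem : ofP z ∈ tube O := by
        intro o
        cases o with
        | none => exact hz2
        | some j => exact hz1 j
      show E n (ofP z) = F k (M * n) z
      rw [hEa n hn _ hmem, ha]
      simp only
      rw [if_neg (by omega), toP_ofP]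
  · intro K hK hKc
    obtain ⟨C, N, hC⟩ := hEb (ofP '' K) (by rintro _ ⟨x, hx, rfl⟩; exact hK hx) (hKc.image continuous_ofP)
    refine ⟨|C|, N, fun n hn z hz => ?_⟩
    have h1 := hC n hn (ofP z) (by rw [re_ofP]; exact ⟨_, hz, rfl⟩)
    rw [im_ofP] at h1
    refine h1.trans ?_
    have h2 := norm_ofP_le (imP z)
    have h3 := le_abs_self C
    gcongr

theorem Continues.pred {k M : ℕ} (hM : 1 ≤ M) (h : Continues (k + 1) M) (n : ℕ) (hn : 1 ≤ n) :
    Continues k (M * n) := by
  obtain ⟨Ω, hΩ, G, hG, hb⟩ := descent hM h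
  refine ⟨Ω, hΩ, G n, hG n hn, fun K hK hKc => ?_⟩
  obtain ⟨C, N, hC⟩ := hb K hK hKc
  exact ⟨C * (n : ℝ) ^ N, N, fun z hz => hC n hn z hz⟩

theorem Continues.descend {k k' M : ℕ} (hM : 1 ≤ M) (hkk : k ≤ k') (h : Continues k' M) :
    Continues k M := by
  induction hkk with
  | refl => exact h
  | step _ ih =>
    apply ih
    have := h.pred hM 1 le_rfl
    simpa using this

theorem continuesUniformly_of_succ {k : ℕ} (h : Continues (k + 1) 1) : ContinuesUniformly k := by
  obtain ⟨Ω, hΩ, G, hG, hb⟩ := descent le_rfl h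
  refine ⟨Ω, hΩ, G, fun M hM => ?_, hb⟩
  have := hG M hM
  rwa [one_mul] at this

theorem ContinuesUniformly.continues {k : ℕ} (h : ContinuesUniformly k) (M : ℕ) (hM : 1 ≤ M) :
    Continues k M := by
  obtain ⟨Ω, hΩ, G, hG, hb⟩ := h
  refine ⟨Ω, hΩ, G M, hG M hM, fun K hK hKc => ?_⟩
  obtain ⟨C, N, hC⟩ := hb K hK hKc
  exact ⟨C * (M : ℝ) ^ N, N, fun z hz => hC M hM z hz⟩

end Pool.Agent.MDS
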