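import Pool.Agent.TubeDS.BochnerMain

set_option autoImplicit false

open Complex Filter Topology
open Pool.Agent.TubeDS

namespace Pool.Agent.MDS

variable {ι : Type*} [Fintype ι]

theorem polyBdd_local {Ω : Set (ι → ℝ)} (hΩ : IsOpen Ω) {G : (ι → ℂ) → ℂ} (hG : PolyBdd Ω G)
    {x : ι → ℝ} (hx : x ∈ Ω) :
    ∃ U ∈ 𝓝 x, ∃ (C : ℝ) (N : ℕ), 0 ≤ C ∧ ∀ z : ι → ℂ, (fun j => (z j).re) ∈ U →
      ‖G z‖ ≤ C * (1 + ‖fun j => (z j).im‖) ^ N := by
  obtain ⟨r, hr, hball⟩ := Metric.isOpen_iff.mp hΩ x hx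
  have h1 : Metric.closedBall x (r / 2) ⊆ Ω :=
    (Metric.closedBall_subset_ball (by linarith)).trans hball
  obtain ⟨C, N, hC⟩ := hG _ h1 (isCompact_closedBall x (r / 2))
  refine ⟨Metric.closedBall x (r / 2), Metric.closedBall_mem_nhds x (by positivity), |C|, N, abs_nonneg C, fun z hz => ?_⟩
  refine (hC z hz).trans ?_
  have := le_abs_self C
  gcongr

/-- gluing two extensions along an overlap, followed by Bochner's theorem -/
theorem glue {D D' : Set (ι → ℝ)} (hD : IsOpen D) (hDc : Convex ℝ D) (hD' : IsOpen D')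
    (hD'c : Convex ℝ D') {G G' : (ι → ℂ) → ℂ} (hG : DifferentiableOn ℂ G (tube D))
    (hGb : PolyBdd D G) (hG' : DifferentiableOn ℂ G' (tube D')) (hG'b : PolyBdd D' G')
    {U : Set (ι → ℝ)} (hU : IsOpen U) (hne : U.Nonempty) (hUD : U ⊆ D ∩ D')
    (heq : Set.EqOn G G' (tube U)) :
    ∃ H : (ι → ℂ) → ℂ, DifferentiableOn ℂ H (tube (convexHull ℝ (D ∪ D'))) ∧
      PolyBdd (convexHull ℝ (D ∪ D')) H ∧ Set.EqOn H G (tube D) ∧ Set.EqOn H G' (tube D') := by
  classical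
  have hI : Set.EqOn G G' (tube (D ∩ D')) :=
    eqOn_tube_of_convex (hD.inter hD') (hDc.inter hD'c) hU hUD hne
      (hG.mono fun z hz => hz.1) (hG'.mono fun z hz => hz.2) heq
  set H₁ : (ι → ℂ) → ℂ := fun z => if z ∈ tube D then G z else G' z with hH₁
  have e1 : Set.EqOn H₁ G (tube D) := fun z hz => by simp only [hH₁, if_pos hz]
  have e2 : Set.EqOn H₁ G' (tube D') := fun z hz => by
    by_cases h : z ∈ tube D
    · simp only [hH₁, if_pos h]; exact hI ⟨h, hz⟩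
    · simp only [hH₁, if_neg h]
  have hd1 : DifferentiableOn ℂ H₁ (tube D) := hG.congr e1
  have hd2 : DifferentiableOn ℂ H₁ (tube D') := hG'.congr e2
  have hO : IsOpen (D ∪ D') := hD.union hD'
  have hpre : IsPreconnected (D ∪ D') := by
    obtain ⟨u, hu⟩ := hne
    exact hDc.isPreconnected.union u (hUD hu).1 (hUD hu).2 hD'c.isPreconnected
  have hne' : (D ∪ D').Nonempty := by
    obtain ⟨u, hu⟩ := hne
    exact ⟨u, Or.inl (hUD hu).1⟩
  have hd : DifferentiableOn ℂ H₁ (tube (D ∪ D')) := by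
    intro z hz
    rcases hz with hz | hz
    · exact ((hd1 z hz).differentiableAt ((isOpen_tube hD).mem_nhds hz)).differentiableWithinAt
    · exact ((hd2 z hz).differentiableAt ((isOpen_tube hD').mem_nhds hz)).differentiableWithinAt
  have hb : PolyBdd (D ∪ D') H₁ := by
    apply polyBdd_of_local
    rintro x (hx | hx)
    · obtain ⟨V, hV, C, N, hC, hb⟩ := polyBdd_local hD hGb hx
      refine ⟨V ∩ D, inter_mem hV (hD.mem_nhds hx), C, N, hC, ?_⟩
      rintro z ⟨hz1, hz2⟩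
      rw [e1 hz2]
      exact hb z hz1
    · obtain ⟨V, hV, C, N, hC, hb⟩ := polyBdd_local hD' hG'b hx
      refine ⟨V ∩ D', inter_mem hV (hD'.mem_nhds hx), C, N, hC, ?_⟩
      rintro z ⟨hz1, hz2⟩
      rw [e2 hz2]
      exact hb z hz1
  obtain ⟨H, hHd, hHe, hHb⟩ := bochner hO hpre hne' hd hb
  refine ⟨H, hHd, hHb, ?_, ?_⟩
  · intro z hz
    rw [hHe (show z ∈ tube (D ∪ D') from Or.inl hz), e1 hz]
  · intro z hz
    rw [hHe (show z ∈ tube (D ∪ D') from Or.inr hz), e2 hz]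

end Pool.Agent.MDS
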