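import Pool.Agent.MDS.Cont
import Pool.Agent.MDS.Glue

set_option autoImplicit false

open Complex Filter Topology
open Pool.Agent.TubeDS

namespace Pool.Agent.MDS

/-- the change of variables in two functional equations -/
def flp {k : ℕ} {R : Type*} [Ring R] (i j : Fin k) (z : Option (Fin k) → R) : Option (Fin k) → R :=
  fun o => o.elim (z none + z (some i) + z (some j) - 1)
    (fun l => if l = i ∨ l = j then 1 - z (some l) else z (some l))

@[simp] theorem flp_none {k : ℕ} {R : Type*} [Ring R] (i j : Fin k) (z : Option (Fin k) → R) :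
    flp i j z none = z none + z (some i) + z (some j) - 1 := rfl

@[simp] theorem flp_some {k : ℕ} {R : Type*} [Ring R] (i j l : Fin k) (z : Option (Fin k) → R) :
    flp i j z (some l) = if l = i ∨ l = j then 1 - z (some l) else z (some l) := rfl

theorem flp_flp {k : ℕ} {R : Type*} [CommRing R] (i j : Fin k) (z : Option (Fin k) → R) :
    flp i j (flp i j z) = z := by
  funext o
  cases o with
  | none => simp only [flp_none, flp_some, true_or, or_true, if_true]; ring
  | some l =>
    simp only [flp_some]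
    split_ifs <;> ring

theorem re_flp {k : ℕ} (i j : Fin k) (z : Option (Fin k) → ℂ) :
    (fun o => (flp i j z o).re) = flp i j (fun o => (z o).re) := by
  funext o
  cases o with
  | none => simp
  | some l => simp only [flp_some]; split_ifs <;> simp

theorem norm_im_flp {k : ℕ} (i j : Fin k) (z : Option (Fin k) → ℂ) :
    ‖fun o => (flp i j z o).im‖ ≤ 3 * ‖fun o => (z o).im‖ := by
  have h0 := norm_nonneg (fun o => (z o).im)
  have h1 : ∀ o, |(z o).im| ≤ ‖fun o => (z o).im‖ := fun o => norm_le_pi_norm (fun o => (z o).im) o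
  rw [pi_norm_le_iff_of_nonneg (by positivity)]
  intro o
  rw [Real.norm_eq_abs]
  cases o with
  | none =>
    simp only [flp_none, Complex.sub_im, Complex.add_im, Complex.one_im, sub_zero]
    have h2 := abs_add_le ((z none).im + (z (some i)).im) (z (some j)).im
    have h3 := abs_add_le (z none).im (z (some i)).im
    have h4 := h1 none
    have h5 := h1 (some i)
    have h6 := h1 (some j)
    linarith
  | some l =>
    simp only [flp_some]
    have h4 := h1 (some l)
    split_ifs
    · simp only [Complex.sub_im, Complex.one_im, zero_sub, abs_neg]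
      linarith
    · linarith

theorem continuous_flp {k : ℕ} (i j : Fin k) : Continuous (flp i j : (Option (Fin k) → ℝ) → _) := by
  refine continuous_pi fun o => ?_
  cases o with
  | none => simp only [flp_none]; fun_prop
  | some l => simp only [flp_some]; split_ifs <;> fun_prop

theorem differentiable_flp {k : ℕ} (i j : Fin k) :
    Differentiable ℂ (flp i j : (Option (Fin k) → ℂ) → _) := by
  rw [differentiable_pi]
  intro o
  cases o with
  | none => simp only [flp_none]; fun_prop
  | some l => simp only [flp_some]; split_ifs <;> fun_prop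

theorem flp_affine {k : ℕ} (i j : Fin k) (x y : Option (Fin k) → ℝ) {a b : ℝ} (hab : a + b = 1) :
    flp i j (a • x + b • y) = a • flp i j x + b • flp i j y := by
  funext o
  cases o with
  | none => simp only [flp_none, Pi.add_apply, Pi.smul_apply, smul_eq_mul]; linear_combination hab
  | some l =>
    simp only [flp_some, Pi.add_apply, Pi.smul_apply, smul_eq_mul]
    split_ifs
    · linear_combination -hab
    · rfl

theorem convex_flp_preimage {k : ℕ} (i j : Fin k) {D : Set (Option (Fin k) → ℝ)} (hD : Convex ℝ D) :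
    Convex ℝ (flp i j ⁻¹' D) := by
  intro x hx y hy a b ha hb hab
  show flp i j (a • x + b • y) ∈ D
  rw [flp_affine i j x y hab]
  exact hD hx hy ha hb hab

/-- the polar polynomial -/
noncomputable def pol {k : ℕ} (z : Option (Fin k) → ℂ) : ℂ := ∏ J : Finset (Fin k), (sig J (toP z) - 1)

theorem sig_eq {k : ℕ} (J : Finset (Fin k)) (z : Option (Fin k) → ℂ) :
    sig J (toP z) = z none + ∑ l : Fin k, (if l ∈ J then z (some l) - 1 / 2 else 0) := by
  unfold sig toP
  rw [Finset.sum_ite_mem, Finset.univ_inter, Finset.sum_sub_distrib]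
  simp
  ring

theorem sig_flp {k : ℕ} {i j : Fin k} (hij : i ≠ j) (J : Finset (Fin k)) (z : Option (Fin k) → ℂ) :
    sig J (toP (flp i j z)) = sig (symmDiff J {i, j}) (toP z) := by
  rw [sig_eq, sig_eq]
  have h1 : z (some i) + z (some j) - 1 = ∑ l : Fin k, (if l = i ∨ l = j then z (some l) - 1 / 2 else 0) := by
    have : ∀ l : Fin k, (if l = i ∨ l = j then z (some l) - 1 / 2 else 0) =
        (if l = i then z (some l) - 1 / 2 else 0) + (if l = j then z (some l) - 1 / 2 else 0) := by
      intro l
      by_cases h1 : l = i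
      · subst h1; simp [hij]
      · simp [h1]
    simp_rw [this, Finset.sum_add_distrib, Finset.sum_ite_eq' Finset.univ, Finset.mem_univ, if_true]
    ring
  have h2 : flp i j z none = z none + (z (some i) + z (some j) - 1) := by simp; ring
  rw [h2, h1, add_assoc, ← Finset.sum_add_distrib]
  congr 1
  refine Finset.sum_congr rfl fun l _ => ?_
  simp only [flp_some, Finset.mem_symmDiff, Finset.mem_insert, Finset.mem_singleton]
  by_cases h3 : l = i ∨ l = j
  · by_cases h4 : l ∈ J
    · simp only [h3, h4, if_true, not_true, and_false, or_false, if_false]; ring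
    · simp only [h3, h4, if_true, if_false, not_false_eq_true, and_true, false_and, or_true]; ring
  · by_cases h4 : l ∈ J <;> simp [h3, h4]

theorem pol_flp {k : ℕ} {i j : Fin k} (hij : i ≠ j) (z : Option (Fin k) → ℂ) :
    pol (flp i j z) = pol z := by
  unfold pol
  simp_rw [sig_flp hij]
  exact Equiv.prod_comp (Function.Involutive.toPerm (fun J : Finset (Fin k) => symmDiff J {i, j})
    (fun J => by simp [symmDiff_symmDiff_cancel_right])) (fun J => sig J (toP z) - 1)

theorem differentiable_pol {k : ℕ} : Differentiable ℂ (pol : (Option (Fin k) → ℂ) → ℂ) := by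
  unfold pol
  apply differentiable_prod
  intro J _
  unfold sig toP
  fun_prop

/-- `F_M` in the coordinates used here, in terms of the continued series -/
noncomputable def Fc (k M : ℕ) (z : Option (Fin k) → ℂ) : ℂ := E k M z * pol z

theorem differentiableOn_Fc (k M : ℕ) : DifferentiableOn ℂ (Fc k M) (tube (R0 k)) :=
  (differentiableOn_E k M).mul differentiable_pol.differentiableOn

theorem polyBdd_mul {ι : Type*} [Fintype ι] {D : Set (ι → ℝ)} {f g : (ι → ℂ) → ℂ} (hf : PolyBdd D f)
    (hg : PolyBdd D g) : PolyBdd D (fun z => f z * g z) := by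
  intro K hK hKc
  obtain ⟨C, N, h1⟩ := hf K hK hKc
  obtain ⟨C', N', h2⟩ := hg K hK hKc
  refine ⟨|C| * |C'|, N + N', fun z hz => ?_⟩
  have h3 := h1 z hz
  have h4 := h2 z hz
  have h5 := le_abs_self C
  have h6 := le_abs_self C'
  have h7 := norm_nonneg (fun j => (z j).im)
  rw [norm_mul, pow_add]
  calc ‖f z‖ * ‖g z‖ ≤ (|C| * (1 + ‖fun j => (z j).im‖) ^ N) * (|C'| * (1 + ‖fun j => (z j).im‖) ^ N') := by
        apply mul_le_mul _ _ (norm_nonneg _) (by positivity)
        · refine h3.trans ?_
          gcongr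
        · refine h4.trans ?_
          gcongr
    _ = _ := by ring

theorem polyBdd_prod {ι α : Type*} [Fintype ι] {D : Set (ι → ℝ)} (s : Finset α) {f : α → (ι → ℂ) → ℂ}
    (hf : ∀ a ∈ s, PolyBdd D (f a)) : PolyBdd D (fun z => ∏ a ∈ s, f a z) := by
  classical
  induction s using Finset.induction_on with
  | empty =>
    intro K _ _
    exact ⟨1, 0, fun z _ => by simp⟩
  | insert a s ha ih =>
    have : (fun z => ∏ b ∈ insert a s, f b z) = fun z => f a z * ∏ b ∈ s, f b z := by
      funext z; rw [Finset.prod_insert ha]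
    rw [this]
    exact polyBdd_mul (hf a (Finset.mem_insert_self _ _)) (ih fun b hb => hf b (Finset.mem_insert_of_mem hb))

/-- a function bounded by a linear expression -/
theorem polyBdd_of_norm_le {ι : Type*} [Fintype ι] {D : Set (ι → ℝ)} {f : (ι → ℂ) → ℂ} {B : ℝ} (hB : 0 ≤ B)
    (hf : ∀ z, ‖f z‖ ≤ B * (1 + ‖z‖)) : PolyBdd D f := by
  intro K _ hKc
  obtain ⟨R, hR⟩ := hKc.isBounded.exists_norm_le
  refine ⟨B * (1 + |R|), 1, fun z hz => (hf z).trans ?_⟩
  have h1 := hR _ hz
  have h2 : ‖z‖ ≤ ‖fun j => (z j).re‖ + ‖fun j => (z j).im‖ := by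
    rw [pi_norm_le_iff_of_nonneg (by positivity)]
    intro j
    refine (Complex.norm_le_abs_re_add_abs_im (z j)).trans ?_
    exact add_le_add (norm_le_pi_norm (fun j => (z j).re) j) (norm_le_pi_norm (fun j => (z j).im) j)
  have h3 := le_abs_self R
  have h4 := abs_nonneg R
  have h5 := norm_nonneg (fun j => (z j).im)
  rw [pow_one, mul_assoc]
  apply mul_le_mul_of_nonneg_left _ hB
  nlinarith

theorem polyBdd_pol {k : ℕ} (D : Set (Option (Fin k) → ℝ)) : PolyBdd D pol := by
  unfold pol
  apply polyBdd_prod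
  intro J _
  apply polyBdd_of_norm_le (B := 2 + 3 * k) (by positivity)
  intro z
  have h0 : ∀ o, ‖z o‖ ≤ ‖z‖ := fun o => norm_le_pi_norm z o
  have hJ : (J.card : ℝ) ≤ k := by
    have := J.card_le_univ
    rw [Fintype.card_fin] at this
    exact_mod_cast this
  have h1 : ‖∑ j ∈ J, z (some j)‖ ≤ J.card * ‖z‖ := by
    refine (norm_sum_le _ _).trans ?_
    calc ∑ j ∈ J, ‖z (some j)‖ ≤ ∑ _j ∈ J, ‖z‖ := Finset.sum_le_sum fun j _ => h0 _
      _ = _ := by simp
  have h2 : ‖sig J (toP z) - 1‖ ≤ ‖z none‖ + J.card / 2 + ‖∑ j ∈ J, z (some j)‖ + 1 := by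
    unfold sig toP
    refine (norm_sub_le _ _).trans ?_
    rw [norm_one]
    refine add_le_add ((norm_add_le _ _).trans ?_) le_rfl
    refine add_le_add ((norm_sub_le _ _).trans ?_) le_rfl
    simp
  have h3 := norm_nonneg z
  have h4 : (J.card : ℝ) * ‖z‖ ≤ k * ‖z‖ := by gcongr
  have h5 := h0 none
  have h6 : (0 : ℝ) ≤ k := Nat.cast_nonneg k
  nlinarith [mul_nonneg h6 h3]

theorem polyBdd_Fc (k M : ℕ) : PolyBdd (R0 k) (Fc k M) := polyBdd_mul (polyBdd_E k M) (polyBdd_pol _)

/-- the functional equation in a pair of variables -/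
theorem tm_flp {k M d : ℕ} (hd : IsFundDisc d) (h1 : 1 < d) {i j : Fin k} (hij : i ≠ j)
    {z : Option (Fin k) → ℂ} (hi : ∀ n : ℕ, z (some i) ≠ 2 * n + 1) (hj : ∀ n : ℕ, z (some j) ≠ 2 * n + 1) :
    tm k M d z = X (z (some i)) * X (z (some j)) * tm k M d (flp i j z) := by
  obtain ⟨_, _, he, hf, _⟩ := Lc_spec hd h1
  have hd0 : (d : ℂ) ≠ 0 := by exact_mod_cast (by omega : d ≠ 0)
  unfold tm
  have hsplit : ∀ f : Fin k → ℂ, ∏ l, f l = f i * (f j * ∏ l ∈ (Finset.univ.erase i).erase j, f l) := by
    intro f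
    rw [← Finset.mul_prod_erase Finset.univ f (Finset.mem_univ i),
      ← Finset.mul_prod_erase (Finset.univ.erase i) f (Finset.mem_erase.mpr ⟨hij.symm, Finset.mem_univ j⟩)]
  rw [hsplit, hsplit (fun l => Lc d (flp i j z (some l)))]
  have h2 : ∏ l ∈ (Finset.univ.erase i).erase j, Lc d (flp i j z (some l)) =
      ∏ l ∈ (Finset.univ.erase i).erase j, Lc d (z (some l)) := by
    refine Finset.prod_congr rfl fun l hl => ?_
    rw [Finset.mem_erase, Finset.mem_erase] at hl
    rw [flp_some, if_neg (by tauto)]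
  rw [h2, hf _ hi, hf _ hj]
  simp only [flp_none, flp_some, true_or, or_true, if_true]
  have h3 : (d : ℂ) ^ (-(z none + z (some i) + z (some j) - 1)) =
      (d : ℂ) ^ (-(z none)) * (d : ℂ) ^ (1 / 2 - z (some i)) * (d : ℂ) ^ (1 / 2 - z (some j)) := by
    rw [← Complex.cpow_add _ _ hd0, ← Complex.cpow_add _ _ hd0]
    congr 1
    ring
  rw [h3]
  linear_combination (kron d M : ℂ) * (d : ℂ) ^ (-(z none)) * (d : ℂ) ^ (1 / 2 - z (some i)) *
    X (z (some i)) * Lc d (1 - z (some i)) * (d : ℂ) ^ (1 / 2 - z (some j)) * X (z (some j)) *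
    Lc d (1 - z (some j)) * (∏ l ∈ (Finset.univ.erase i).erase j, Lc d (z (some l))) * he

theorem Fc_flp {k M : ℕ} {i j : Fin k} (hij : i ≠ j) {z : Option (Fin k) → ℂ}
    (hi : ∀ n : ℕ, z (some i) ≠ 2 * n + 1) (hj : ∀ n : ℕ, z (some j) ≠ 2 * n + 1) :
    Fc k M z = X (z (some i)) * X (z (some j)) * Fc k M (flp i j z) := by
  unfold Fc
  rw [pol_flp hij, ← mul_assoc]
  congr 1
  unfold E
  rw [← tsum_mul_left]
  exact tsum_congr fun d => tm_flp d.2.1 d.2.2 hij hi hj

end Pool.Agent.MDS
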