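import Pool.Agent.MDS.Abel

set_option autoImplicit false

open Complex Filter Topology MeasureTheory

namespace Pool.Agent.MDS

/-- `|Γ(a + i y)| / Γ(a)` is nondecreasing in `a > 0` -/
theorem norm_Gamma_le {a b y : ℝ} (ha : 0 < a) (hab : a ≤ b) :
    ‖Complex.Gamma (a + y * I)‖ ≤ Real.Gamma a / Real.Gamma b * ‖Complex.Gamma (b + y * I)‖ := by
  rcases hab.eq_or_lt with rfl | hlt
  · rw [div_self (Real.Gamma_pos_of_pos ha).ne', one_mul]
  have hv : 0 < b - a := by linarith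
  have hre : ((a : ℂ) + y * I).re = a := by simp
  have h1 := Complex.Gamma_mul_Gamma_eq_betaIntegral (s := (a : ℂ) + y * I) (t := ((b - a : ℝ) : ℂ))
    (by rw [hre]; exact ha) (by rw [ofReal_re]; exact hv)
  have h2 := Complex.Gamma_mul_Gamma_eq_betaIntegral (s := (a : ℂ)) (t := ((b - a : ℝ) : ℂ))
    (by rw [ofReal_re]; exact ha) (by rw [ofReal_re]; exact hv)
  have h3 : ((a : ℂ) + y * I) + ((b - a : ℝ) : ℂ) = b + y * I := by push_cast; ring
  have h4 : (a : ℂ) + ((b - a : ℝ) : ℂ) = (b : ℂ) := by push_cast; ring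
  rw [h3] at h1
  rw [h4] at h2
  have hconv := Complex.betaIntegral_convergent (u := (a : ℂ)) (v := ((b - a : ℝ) : ℂ))
    (by rw [ofReal_re]; exact ha) (by rw [ofReal_re]; exact hv)
  -- the real beta integral
  have hnorm : ‖betaIntegral ((a : ℂ) + y * I) ((b - a : ℝ) : ℂ)‖ ≤
      ∫ x in (0 : ℝ)..1, x ^ (a - 1) * (1 - x) ^ (b - a - 1) := by
    unfold betaIntegral
    refine (intervalIntegral.norm_integral_le_integral_norm zero_le_one).trans (le_of_eq ?_)
    rw [intervalIntegral.integral_of_le zero_le_one, intervalIntegral.integral_of_le zero_le_one,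
      integral_Ioc_eq_integral_Ioo, integral_Ioc_eq_integral_Ioo]
    refine setIntegral_congr_fun measurableSet_Ioo ?_
    intro x hx
    have hx1 : 0 < 1 - x := by linarith [hx.2]
    simp only
    rw [norm_mul, norm_cpow_eq_rpow_re_of_pos hx.1]
    have e1 : ((1 : ℂ) - (x : ℂ)) = ((1 - x : ℝ) : ℂ) := by push_cast; ring
    rw [e1, norm_cpow_eq_rpow_re_of_pos hx1]
    congr 2
    simp
  have hreal : betaIntegral (a : ℂ) ((b - a : ℝ) : ℂ) =
      ((∫ x in (0 : ℝ)..1, x ^ (a - 1) * (1 - x) ^ (b - a - 1) : ℝ) : ℂ) := by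
    unfold betaIntegral
    rw [← intervalIntegral.integral_ofReal, intervalIntegral.integral_of_le zero_le_one,
      intervalIntegral.integral_of_le zero_le_one, integral_Ioc_eq_integral_Ioo,
      integral_Ioc_eq_integral_Ioo]
    refine setIntegral_congr_fun measurableSet_Ioo ?_
    intro x hx
    have hx1 : 0 < 1 - x := by linarith [hx.2]
    simp only
    rw [ofReal_mul, ofReal_cpow hx.1.le, ofReal_cpow hx1.le]
    push_cast
    rfl
  have hB : (∫ x in (0 : ℝ)..1, x ^ (a - 1) * (1 - x) ^ (b - a - 1)) =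
      Real.Gamma a * Real.Gamma (b - a) / Real.Gamma b := by
    have hb : 0 < b := by linarith
    rw [hreal, Complex.Gamma_ofReal, Complex.Gamma_ofReal, Complex.Gamma_ofReal] at h2
    rw [eq_div_iff (Real.Gamma_pos_of_pos hb).ne']
    have : (((Real.Gamma a * Real.Gamma (b - a) : ℝ)) : ℂ) =
      ((Real.Gamma b * (∫ x in (0 : ℝ)..1, x ^ (a - 1) * (1 - x) ^ (b - a - 1)) : ℝ) : ℂ) := by
      push_cast
      exact h2
    have := Complex.ofReal_injective this
    linarith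
  have h5 : ‖Complex.Gamma (a + y * I)‖ * Real.Gamma (b - a) =
      ‖Complex.Gamma (b + y * I)‖ * ‖betaIntegral ((a : ℂ) + y * I) ((b - a : ℝ) : ℂ)‖ := by
    have h6 := congrArg norm h1
    rw [norm_mul, norm_mul, Complex.Gamma_ofReal, Complex.norm_real,
      Real.norm_of_nonneg (Real.Gamma_pos_of_pos hv).le] at h6
    exact h6
  rw [hB] at hnorm
  have h7 : 0 < Real.Gamma (b - a) := Real.Gamma_pos_of_pos hv
  have h8 : ‖Complex.Gamma (a + y * I)‖ * Real.Gamma (b - a) ≤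
      (Real.Gamma a / Real.Gamma b * ‖Complex.Gamma (b + y * I)‖) * Real.Gamma (b - a) := by
    rw [h5]
    calc _ ≤ ‖Complex.Gamma (b + y * I)‖ * (Real.Gamma a * Real.Gamma (b - a) / Real.Gamma b) := by
          gcongr
      _ = _ := by ring
  exact le_of_mul_le_mul_right h8 h7

theorem Gamma_add_nat (z : ℂ) (n : ℕ) (hz : ∀ i < n, z + i ≠ 0) :
    Complex.Gamma (z + n) = (∏ i ∈ Finset.range n, (z + i)) * Complex.Gamma z := by
  induction n with
  | zero => simp
  | succ n ih =>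
    rw [Finset.prod_range_succ]
    have h1 : z + ((n + 1 : ℕ) : ℂ) = (z + n) + 1 := by push_cast; ring
    rw [h1, Complex.Gamma_add_one _ (hz n (Nat.lt_succ_self n)), ih fun i hi => hz i (Nat.lt_succ_of_lt hi)]
    ring

/-- local polynomial bound for the quotient of Gamma functions -/
theorem norm_Gamma_ratio {a b y δ : ℝ} {n m : ℕ} (hδ : 0 < δ) (ha : ∀ i < n, δ ≤ |a + i|)
    (han : 0 < a + n) (hab : a + n ≤ b + m) :
    ‖Complex.Gamma (a + y * I)‖ * ‖Complex.Gamma (b + y * I)‖⁻¹ ≤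
      (δ⁻¹) ^ n * (Real.Gamma (a + n) / Real.Gamma (b + m)) * (|b| + m + |y|) ^ m := by
  have hG1 : 0 < Real.Gamma (a + n) := Real.Gamma_pos_of_pos han
  have hG2 : 0 < Real.Gamma (b + m) := Real.Gamma_pos_of_pos (by linarith)
  have hrhs : 0 ≤ (δ⁻¹) ^ n * (Real.Gamma (a + n) / Real.Gamma (b + m)) * (|b| + m + |y|) ^ m := by
    positivity
  by_cases hb0 : Complex.Gamma (b + y * I) = 0
  · rw [hb0, norm_zero, inv_zero, mul_zero]; exact hrhs
  have hbz : ∀ i < m, ((b : ℂ) + y * I) + i ≠ 0 := by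
    intro i _ h
    apply hb0
    rw [Complex.Gamma_eq_zero_iff]
    exact ⟨i, by linear_combination h⟩
  have haz : ∀ i < n, ((a : ℂ) + y * I) + i ≠ 0 := by
    intro i hi h
    have h1 := congrArg Complex.re h
    simp at h1
    have h2 := ha i hi
    rw [h1, abs_zero] at h2
    linarith
  have e1 := Gamma_add_nat ((a : ℂ) + y * I) n haz
  have e2 := Gamma_add_nat ((b : ℂ) + y * I) m hbz
  have e3 : ((a : ℂ) + y * I) + n = ((a + n : ℝ) : ℂ) + y * I := by push_cast; ring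
  have e4 : ((b : ℂ) + y * I) + m = ((b + m : ℝ) : ℂ) + y * I := by push_cast; ring
  rw [e3] at e1
  rw [e4] at e2
  have h1 := norm_Gamma_le (y := y) han hab
  have h2 : δ ^ n * ‖Complex.Gamma (a + y * I)‖ ≤ ‖Complex.Gamma (((a + n : ℝ) : ℂ) + y * I)‖ := by
    rw [e1, norm_mul, norm_prod]
    gcongr
    calc δ ^ n = ∏ i ∈ Finset.range n, δ := by simp
      _ ≤ ∏ i ∈ Finset.range n, ‖((a : ℂ) + y * I) + i‖ := by
        apply Finset.prod_le_prod
        · intro i _; exact hδ.le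
        · intro i hi
          refine (ha i (Finset.mem_range.mp hi)).trans ?_
          have : (((a : ℂ) + y * I) + i).re = a + i := by simp
          rw [← this]
          exact Complex.abs_re_le_norm _
  have h3 : ‖Complex.Gamma (((b + m : ℝ) : ℂ) + y * I)‖ ≤ (|b| + m + |y|) ^ m * ‖Complex.Gamma (b + y * I)‖ := by
    rw [e2, norm_mul, norm_prod]
    gcongr
    calc ∏ i ∈ Finset.range m, ‖((b : ℂ) + y * I) + i‖ ≤ ∏ i ∈ Finset.range m, (|b| + m + |y|) := by
          apply Finset.prod_le_prod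
          · intro i _; exact norm_nonneg _
          · intro i hi
            have hi' : (i : ℝ) ≤ m := by exact_mod_cast (Finset.mem_range.mp hi).le
            calc ‖((b : ℂ) + y * I) + i‖ ≤ ‖(b : ℂ)‖ + ‖(y : ℂ) * I‖ + ‖(i : ℂ)‖ := norm_add₃_le
              _ = |b| + |y| + i := by
                rw [norm_mul, Complex.norm_I, mul_one, Complex.norm_real, Complex.norm_real,
                  Complex.norm_natCast, Real.norm_eq_abs, Real.norm_eq_abs]
              _ ≤ |b| + m + |y| := by linarith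
      _ = _ := by simp
  have hbpos : 0 < ‖Complex.Gamma (b + y * I)‖ := norm_pos_iff.mpr hb0
  rw [← div_eq_mul_inv, div_le_iff₀ hbpos]
  have hδn : 0 < δ ^ n := by positivity
  have h4 : δ ^ n * ‖Complex.Gamma (a + y * I)‖ ≤ Real.Gamma (a + n) / Real.Gamma (b + m) *
      ((|b| + m + |y|) ^ m * ‖Complex.Gamma (b + y * I)‖) := by
    refine h2.trans (h1.trans ?_)
    gcongr
  calc ‖Complex.Gamma (a + y * I)‖ = (δ⁻¹) ^ n * (δ ^ n * ‖Complex.Gamma (a + y * I)‖) := by
        rw [inv_pow]; field_simp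
    _ ≤ (δ⁻¹) ^ n * (Real.Gamma (a + n) / Real.Gamma (b + m) *
      ((|b| + m + |y|) ^ m * ‖Complex.Gamma (b + y * I)‖)) := by gcongr
    _ = _ := by ring

theorem norm_X (s : ℂ) : ‖X s‖ = Real.pi ^ (s.re - 1 / 2) *
    (‖Complex.Gamma (((1 - s.re) / 2 : ℝ) + (s.im / 2 : ℝ) * I)‖ *
      ‖Complex.Gamma ((s.re / 2 : ℝ) + (s.im / 2 : ℝ) * I)‖⁻¹) := by
  unfold X
  rw [Gammaℝ_def, Gammaℝ_def, norm_mul, norm_inv, norm_mul, norm_mul]
  have h1 : ‖((Real.pi : ℝ) : ℂ) ^ (-(1 - s) / 2)‖ = Real.pi ^ ((s.re - 1) / 2) := by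
    rw [norm_cpow_eq_rpow_re_of_pos Real.pi_pos]
    congr 1
    simp
  have h2 : ‖((Real.pi : ℝ) : ℂ) ^ (-s / 2)‖ = Real.pi ^ (-s.re / 2) := by
    rw [norm_cpow_eq_rpow_re_of_pos Real.pi_pos]
    congr 1
    simp
  have h3 : ‖Complex.Gamma ((1 - s) / 2)‖ = ‖Complex.Gamma (((1 - s.re) / 2 : ℝ) + (s.im / 2 : ℝ) * I)‖ := by
    rw [← Complex.norm_conj (Complex.Gamma ((1 - s) / 2)), ← Complex.Gamma_conj]
    congr 2
    apply Complex.ext
    · rw [Complex.conj_re]; simp
    · rw [Complex.conj_im]; simp; ring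
  have h4 : s / 2 = ((s.re / 2 : ℝ) : ℂ) + (s.im / 2 : ℝ) * I := by
    apply Complex.ext <;> simp
  rw [h1, h2, h3, h4]
  have h5 : Real.pi ^ (s.re - 1 / 2) = Real.pi ^ ((s.re - 1) / 2) * (Real.pi ^ (-s.re / 2))⁻¹ := by
    rw [← Real.rpow_neg Real.pi_pos.le, ← Real.rpow_add Real.pi_pos]
    congr 1
    ring
  rw [h5, mul_inv]
  ring

/-- local polynomial bound for `X` away from its poles -/
theorem X_local_bound (σ₀ : ℝ) (hσ₀ : ∀ n : ℕ, σ₀ ≠ 2 * n + 1) :
    ∃ U ∈ 𝓝 σ₀, ∃ (C : ℝ) (N : ℕ), 0 ≤ C ∧ ∀ s : ℂ, s.re ∈ U → ‖X s‖ ≤ C * (1 + |s.im|) ^ N := by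
  -- choose the shifts
  obtain ⟨n, hn⟩ := exists_nat_gt (-((1 - σ₀) / 2))
  obtain ⟨m, hm⟩ := exists_nat_gt ((1 - σ₀) / 2 + n - σ₀ / 2)
  -- the distance to the poles
  have hδ : ∃ δ > 0, ∀ i < n, 2 * δ ≤ |(1 - σ₀) / 2 + i| := by
    have hpos : ∀ i : ℕ, 0 < |(1 - σ₀) / 2 + i| := by
      intro i
      rw [abs_pos]
      intro h
      apply hσ₀ i
      linarith
    rcases Nat.eq_zero_or_pos n with rfl | hn0
    · exact ⟨1, one_pos, fun i hi => absurd hi (Nat.not_lt_zero i)⟩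
    · obtain ⟨i0, hi0, hmin⟩ := Finset.exists_min_image (Finset.range n) (fun i : ℕ => |(1 - σ₀) / 2 + i|)
        ⟨0, Finset.mem_range.mpr hn0⟩
      exact ⟨|(1 - σ₀) / 2 + i0| / 2, by have := hpos i0; linarith,
        fun i hi => by have := hmin i (Finset.mem_range.mpr hi); linarith⟩
  obtain ⟨δ, hδ0, hδ⟩ := hδ
  set h : ℝ → ℝ := fun σ => Real.pi ^ (σ - 1 / 2) *
    (Real.Gamma ((1 - σ) / 2 + n) / Real.Gamma (σ / 2 + m)) with hh
  have hmpos : 0 < σ₀ / 2 + m := by linarith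
  have hnpos : 0 < (1 - σ₀) / 2 + n := by linarith
  have hcont : ContinuousAt h σ₀ := by
    apply ContinuousAt.mul
    · exact (Real.continuousAt_const_rpow Real.pi_pos.ne').comp (by fun_prop)
    · apply ContinuousAt.div
      · have := (Real.differentiableAt_Gamma (s := (1 - σ₀) / 2 + n)
          (fun m h => by have : (0 : ℝ) ≤ m := Nat.cast_nonneg m; linarith)).continuousAt
        exact ContinuousAt.comp (f := fun σ : ℝ => (1 - σ) / 2 + n) this (by fun_prop)
      · have := (Real.differentiableAt_Gamma (s := σ₀ / 2 + m)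
          (fun m h => by have : (0 : ℝ) ≤ m := Nat.cast_nonneg m; linarith)).continuousAt
        exact ContinuousAt.comp (f := fun σ : ℝ => σ / 2 + m) this (by fun_prop)
      · exact (Real.Gamma_pos_of_pos hmpos).ne'
  have hev : ∀ᶠ σ in 𝓝 σ₀, h σ < h σ₀ + 1 := hcont.eventually_lt continuousAt_const (by linarith)
  have hev2 : ∀ᶠ σ in 𝓝 σ₀, |σ - σ₀| < min (min δ 1) (min (σ₀ / 2 + m - ((1 - σ₀) / 2 + n)) ((1 - σ₀) / 2 + n)) := by
    have hpos : 0 < min (min δ 1) (min (σ₀ / 2 + m - ((1 - σ₀) / 2 + n)) ((1 - σ₀) / 2 + n)) := by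
      apply lt_min (lt_min hδ0 one_pos) (lt_min (by linarith) hnpos)
    have := Metric.ball_mem_nhds σ₀ hpos
    filter_upwards [this] with σ hσ
    rwa [Metric.mem_ball, Real.dist_eq] at hσ
  refine ⟨_, hev.and hev2, (h σ₀ + 1) * (δ⁻¹) ^ n * (|σ₀| + 2 + m) ^ m, m, ?_, ?_⟩
  · have : 0 ≤ h σ₀ := by
      simp only [hh]
      have h1 := Real.Gamma_pos_of_pos hmpos
      have h2 := Real.Gamma_pos_of_pos hnpos
      positivity
    positivity
  · intro s hs
    obtain ⟨hs1, hs2⟩ := hs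
    simp only [lt_min_iff] at hs2
    obtain ⟨⟨h1, h1'⟩, h2, h3⟩ := hs2
    obtain ⟨h4, h5⟩ := abs_lt.mp h1
    obtain ⟨h6, h7⟩ := abs_lt.mp h2
    obtain ⟨h8, h9⟩ := abs_lt.mp h3
    obtain ⟨h10, h11⟩ := abs_lt.mp h1'
    rw [norm_X]
    have key := norm_Gamma_ratio (a := (1 - s.re) / 2) (b := s.re / 2) (y := s.im / 2) (δ := δ) (n := n) (m := m)
      hδ0 (by
        intro i hi
        have h12 := hδ i hi
        have h13 : |(1 - s.re) / 2 + i - ((1 - σ₀) / 2 + i)| ≤ δ := by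
          rw [show (1 - s.re) / 2 + i - ((1 - σ₀) / 2 + i) = -((s.re - σ₀) / 2) by ring, abs_neg, abs_div,
            abs_of_pos (two_pos : (0 : ℝ) < 2)]
          linarith [abs_nonneg (s.re - σ₀)]
        have h14 := abs_sub_abs_le_abs_sub ((1 - σ₀) / 2 + i) ((1 - s.re) / 2 + i)
        rw [abs_sub_comm] at h14
        linarith) (by linarith) (by linarith)
    have hbase : |s.re / 2| + m + |s.im / 2| ≤ (|σ₀| + 2 + m) * (1 + |s.im|) := by
      have e1 : |s.re / 2| ≤ |σ₀| + 1 := by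
        rw [abs_div, abs_of_pos (two_pos : (0 : ℝ) < 2)]
        have := abs_sub_abs_le_abs_sub s.re σ₀
        have := abs_nonneg σ₀
        linarith
      have e2 : |s.im / 2| = |s.im| / 2 := by rw [abs_div, abs_of_pos (two_pos : (0 : ℝ) < 2)]
      rw [e2]
      have e3 := abs_nonneg s.im
      have e4 := abs_nonneg σ₀
      have e5 : (0 : ℝ) ≤ m := Nat.cast_nonneg m
      nlinarith [mul_nonneg e4 e3, mul_nonneg e5 e3]
    have hpi : 0 < Real.pi ^ (s.re - 1 / 2) := Real.rpow_pos_of_pos Real.pi_pos _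
    have hG : 0 < Real.Gamma ((1 - s.re) / 2 + n) := Real.Gamma_pos_of_pos (by linarith)
    have hG' : 0 < Real.Gamma (s.re / 2 + m) := Real.Gamma_pos_of_pos (by linarith)
    have hfin : h s.re ≤ h σ₀ + 1 := hs1.le
    simp only [hh] at hfin
    calc _ ≤ Real.pi ^ (s.re - 1 / 2) * ((δ⁻¹) ^ n * (Real.Gamma ((1 - s.re) / 2 + n) / Real.Gamma (s.re / 2 + m)) *
          (|s.re / 2| + m + |s.im / 2|) ^ m) := by gcongr
      _ = (Real.pi ^ (s.re - 1 / 2) * (Real.Gamma ((1 - s.re) / 2 + n) / Real.Gamma (s.re / 2 + m))) * (δ⁻¹) ^ n *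
          (|s.re / 2| + m + |s.im / 2|) ^ m := by ring
      _ ≤ (h σ₀ + 1) * (δ⁻¹) ^ n * ((|σ₀| + 2 + m) * (1 + |s.im|)) ^ m := by
        simp only [hh]
        gcongr
      _ = _ := by rw [mul_pow]; ring

theorem differentiableAt_X {s : ℂ} (hs : ∀ n : ℕ, s ≠ 2 * n + 1) : DifferentiableAt ℂ X s := by
  unfold X
  apply DifferentiableAt.mul
  · have h1 : DifferentiableAt ℂ Gammaℝ (1 - s) := by
      have : Gammaℝ = fun z : ℂ => (Real.pi : ℂ) ^ (-z / 2) * Complex.Gamma (z / 2) := by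
        funext z; rfl
      rw [this]
      apply DifferentiableAt.mul
      · apply DifferentiableAt.const_cpow
        · fun_prop
        · left; exact_mod_cast Real.pi_ne_zero
      · have h2 : DifferentiableAt ℂ Complex.Gamma ((1 - s) / 2) := by
          apply Complex.differentiableAt_Gamma
          intro m hm
          apply hs m
          linear_combination (-2) * hm
        exact DifferentiableAt.comp (f := fun z : ℂ => z / 2) (1 - s) h2 (by fun_prop)
    exact DifferentiableAt.comp (f := fun z : ℂ => 1 - z) s h1 (by fun_prop)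
  · exact differentiable_Gammaℝ_inv s

end Pool.Agent.MDS
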