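import Pool.Agent.MDS.Defs

/-!
# Points to which the multiple Dirichlet series extends
-/

set_option autoImplicit false

namespace Pool.Agent.MDS

/-- `F_M` extends holomorphically from its region of absolute convergence to a tube domain
`{z : Re z ∈ Ω}` with `Ω` open, connected and containing `x`, and the extension is polynomially
bounded in vertical strips. -/
def ExtendsTo (k M : ℕ) (x : (Fin k → ℝ) × ℝ) : Prop :=
  ∃ Ω : Set ((Fin k → ℝ) × ℝ), IsOpen Ω ∧ IsConnected Ω ∧ {y | (∀ j, 1 < y.1 j) ∧ 1 < y.2} ⊆ Ω ∧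
    x ∈ Ω ∧ ∃ G : (Fin k → ℂ) × ℂ → ℂ, IsExtension k M Ω G ∧
      ∀ K ⊆ Ω, IsCompact K → ∃ (C : ℝ) (N : ℕ), ∀ z, reP z ∈ K → ‖G z‖ ≤ C * (1 + ‖imP z‖) ^ N

/-- the weight `W(s_1, ..., s_k; w) = w + (1/2) ∑ (s_j - 1/2)` of a real point -/
noncomputable def weight {k : ℕ} (x : (Fin k → ℝ) × ℝ) : ℝ := x.2 + (∑ j, (x.1 j - 1 / 2)) / 2

end Pool.Agent.MDS
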