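import Pool.Agent.MDS.Steps
import Pool.Agent.MDS.ReachDefs

set_option autoImplicit false

open Complex Filter Topology
open Pool.Agent.TubeDS

namespace Pool.Agent.MDS

theorem reP_toP {k : ℕ} (x : Option (Fin k) → ℂ) : reP (toP x) = toP (fun o => (x o).re) := rfl

theorem imP_toP {k : ℕ} (x : Option (Fin k) → ℂ) : imP (toP x) = toP (fun o => (x o).im) := rfl

theorem norm_toP_le {k : ℕ} (y : Option (Fin k) → ℝ) : ‖toP y‖ ≤ ‖y‖ := by
  rw [Prod.norm_def]
  apply max_le
  · rw [pi_norm_le_iff_of_nonneg (norm_nonneg _)]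
    intro j
    exact norm_le_pi_norm y (some j)
  · exact norm_le_pi_norm y none

theorem differentiable_toP {k : ℕ} : Differentiable ℂ (toP : (Option (Fin k) → ℂ) → (Fin k → ℂ) × ℂ) := by
  refine Differentiable.prodMk ?_ (differentiable_apply _)
  rw [differentiable_pi]
  intro j
  exact differentiable_apply _

/-- the weight in the coordinates used here -/
noncomputable def wt {k : ℕ} (x : Option (Fin k) → ℝ) : ℝ := x none + (∑ j, (x (some j) - 1 / 2)) / 2

theorem wt_mid {k : ℕ} {i j : Fin k} (hij : i ≠ j) (x : Option (Fin k) → ℝ) : wt (mid i j x) = wt x := by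
  have h1 : ∀ l, mid i j x (some l) - 1 / 2 = (x (some l) - 1 / 2) -
      ((if l = i then x (some l) - 1 / 2 else 0) + (if l = j then x (some l) - 1 / 2 else 0)) := by
    intro l
    have e : mid i j x (some l) = 1 / 2 * x (some l) + 1 / 2 * flp i j x (some l) := rfl
    rw [e, flp_some]
    by_cases h1 : l = i
    · subst h1; simp [hij]; ring
    · by_cases h2 : l = j
      · subst h2; simp [h1]; ring
      · simp [h1, h2]; ring
  unfold wt
  have e : mid i j x none = 1 / 2 * x none + 1 / 2 * flp i j x none := rfl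
  simp_rw [h1, Finset.sum_sub_distrib, Finset.sum_add_distrib, Finset.sum_ite_eq' Finset.univ,
    Finset.mem_univ, if_true, e, flp_none]
  ring

theorem mid_some {k : ℕ} (i j l : Fin k) (x : Option (Fin k) → ℝ) :
    mid i j x (some l) = if l = i ∨ l = j then 1 / 2 else x (some l) := by
  have e : mid i j x (some l) = 1 / 2 * x (some l) + 1 / 2 * flp i j x (some l) := rfl
  rw [e, flp_some]
  split_ifs <;> ring

theorem half_ne (n : ℕ) : (1 / 2 : ℝ) ≠ -(2 * n) := by
  have : (0 : ℝ) ≤ n := Nat.cast_nonneg n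
  intro h
  linarith

theorem Good.iterate {k M : ℕ} {D : Set (Option (Fin k) → ℝ)} (h : Good k M D)
    {x : Option (Fin k) → ℝ} (hx : x ∈ D) (hgen : ∀ l (n : ℕ), x (some l) ≠ -(2 * n)) (i : Fin k)
    (T : Finset (Fin k)) (hT : i ∉ T) : ∃ D' y, Good k M D' ∧ y ∈ D' ∧ wt y = wt x ∧
      (∀ l, y (some l) = 1 / 2 ∨ (y (some l) = x (some l) ∧ l ∉ T)) ∧
      (T.Nonempty → y (some i) = 1 / 2) := by
  induction T using Finset.induction_on with
  | empty => exact ⟨D, x, h, hx, rfl, fun l => Or.inr ⟨rfl, Finset.notMem_empty _⟩, fun h => absurd h (by simp)⟩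
  | insert j T hj ih =>
    obtain ⟨D', y, hD', hy, hw, hc, _⟩ := ih (fun h => hT (Finset.mem_insert_of_mem h))
    have hij : i ≠ j := fun h => hT (h ▸ Finset.mem_insert_self _ _)
    have hgen' : ∀ l (n : ℕ), y (some l) ≠ -(2 * n) := by
      intro l n
      rcases hc l with h1 | ⟨h1, _⟩
      · rw [h1]; exact half_ne n
      · rw [h1]; exact hgen l n
    obtain ⟨D'', hD'', hm⟩ := hD'.step hij hy (hgen' i) (hgen' j)
    refine ⟨D'', mid i j y, hD'', hm, ?_, ?_, ?_⟩
    · rw [wt_mid hij, hw]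
    · intro l
      rw [mid_some]
      split_ifs with h1
      · exact Or.inl rfl
      · rcases hc l with h2 | ⟨h2, h3⟩
        · exact Or.inl h2
        · refine Or.inr ⟨h2, ?_⟩
          rw [Finset.mem_insert]
          tauto
    · intro _
      rw [mid_some, if_pos (Or.inl rfl)]

/-- the point `(1/2, ..., 1/2; c)` -/
noncomputable def cen (k : ℕ) (c : ℝ) : Option (Fin k) → ℝ := fun o => o.elim c (fun _ => 1 / 2)

theorem Good.reach {k M : ℕ} (hk : 2 ≤ k) {D : Set (Option (Fin k) → ℝ)} (h : Good k M D)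
    {x : Option (Fin k) → ℝ} (hx : x ∈ D) (hgen : ∀ l (n : ℕ), x (some l) ≠ -(2 * n)) :
    ∃ D', Good k M D' ∧ cen k (wt x) ∈ D' := by
  set i : Fin k := ⟨0, by omega⟩ with hi
  set T : Finset (Fin k) := Finset.univ.erase i with hT
  obtain ⟨D', y, hD', hy, hw, hc, hne⟩ := h.iterate hx hgen i T (Finset.notMem_erase _ _)
  refine ⟨D', hD', ?_⟩
  have hTne : T.Nonempty := ⟨⟨1, by omega⟩, Finset.mem_erase.mpr ⟨by simp [hi, Fin.ext_iff], Finset.mem_univ _⟩⟩
  have hy2 : ∀ l, y (some l) = 1 / 2 := by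
    intro l
    by_cases hl : l = i
    · rw [hl]; exact hne hTne
    · rcases hc l with h1 | ⟨_, h1⟩
      · exact h1
      · exact absurd (Finset.mem_erase.mpr ⟨hl, Finset.mem_univ l⟩) h1
  have : cen k (wt x) = y := by
    funext o
    cases o with
    | none =>
      show wt x = y none
      rw [← hw]
      unfold wt
      simp [hy2]
    | some l => exact (hy2 l).symm
  rw [this]
  exact hy

theorem ExtendsTo.good {k M : ℕ} {x : (Fin k → ℝ) × ℝ} (h : ExtendsTo k M x) :
    ∃ D, Good k M D ∧ ofP x ∈ D := by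
  obtain ⟨Ω, hΩo, hΩc, hΩreg, hxΩ, G, ⟨hGd, hGF⟩, hGb⟩ := h
  set Ω₁ : Set (Option (Fin k) → ℝ) := toP ⁻¹' Ω with hΩ₁
  have hΩ₁o : IsOpen Ω₁ := hΩo.preimage continuous_toP
  have hΩ₁im : Ω₁ = ofP '' Ω := by
    ext x
    constructor
    · intro hx; exact ⟨toP x, hx, ofP_toP x⟩
    · rintro ⟨p, hp, rfl⟩; show toP (ofP p) ∈ Ω; rw [toP_ofP]; exact hp
  have hΩ₁pre : IsPreconnected Ω₁ := by
    rw [hΩ₁im]; exact hΩc.isPreconnected.image _ continuous_ofP.continuousOn
  have hΩ₁ne : Ω₁.Nonempty := by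
    rw [hΩ₁im]; exact hΩc.nonempty.image _
  set G₁ : (Option (Fin k) → ℂ) → ℂ := fun z => G (toP z) with hG₁
  have hG₁d : DifferentiableOn ℂ G₁ (tube Ω₁) := by
    refine hGd.comp differentiable_toP.differentiableOn ?_
    intro z hz
    show reP (toP z) ∈ Ω
    rw [reP_toP]; exact hz
  have hG₁b : PolyBdd Ω₁ G₁ := by
    intro K hK hKc
    obtain ⟨C, N, hC⟩ := hGb (toP '' K) (by rintro _ ⟨x, hx, rfl⟩; exact hK hx)
      (hKc.image continuous_toP)
    refine ⟨|C|, N, fun z hz => ?_⟩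
    have h1 := hC (toP z) (by rw [reP_toP]; exact ⟨_, hz, rfl⟩)
    rw [imP_toP] at h1
    refine h1.trans ?_
    have h2 := norm_toP_le (fun o => (z o).im)
    have h3 := le_abs_self C
    gcongr
  obtain ⟨G₂, hG₂d, hG₂e, hG₂b⟩ := bochner hΩ₁o hΩ₁pre hΩ₁ne hG₁d hG₁b
  set C₁ : Set (Option (Fin k) → ℝ) := convexHull ℝ Ω₁ with hC₁
  have hC₁o : IsOpen C₁ := hΩ₁o.convexHull
  have hC₁c : Convex ℝ C₁ := convex_convexHull ℝ Ω₁
  have hsub : Ω₁ ⊆ C₁ := subset_convexHull ℝ Ω₁
  have hQ : Q0 k ⊆ Ω₁ := fun x hx => hΩreg ⟨fun j => hx (some j), hx none⟩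
  have hG₂F : ∀ z ∈ tube (Q0 k), G₂ z = F k M (toP z) := by
    intro z hz
    rw [hG₂e (show z ∈ tube Ω₁ from hQ hz)]
    exact hGF (toP z) (fun j => hz (some j)) (hz none)
  have hUne : (Q0 k ∩ R0 k).Nonempty := by
    obtain ⟨T, hT⟩ := exists_far_single (fun _ : Option (Fin k) => (2 : ℝ))
    refine ⟨_, ?_, hT (max T 2) (le_max_left _ _)⟩
    intro o
    cases o with
    | none => exact lt_of_lt_of_le one_lt_two (le_max_right _ _)
    | some l => exact one_lt_two
  obtain ⟨H, hHd, hHb, hHG, hHR⟩ := glue hC₁o hC₁c (isOpen_R0 k) (convex_R0 k) hG₂d hG₂b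
    (differentiableOn_Fc k M) (polyBdd_Fc k M) ((isOpen_Q0 k).inter (isOpen_R0 k)) hUne
    (fun u hu => ⟨hsub (hQ hu.1), hu.2⟩) (by
      intro z hz
      rw [hG₂F z hz.1]
      exact F_eq_Fc hz.1)
  refine ⟨convexHull ℝ (C₁ ∪ R0 k), ⟨(hC₁o.union (isOpen_R0 k)).convexHull, convex_convexHull ℝ _, ?_, ?_,
    H, hHd, hHb, hHR, ?_⟩, ?_⟩
  · exact Set.subset_union_right.trans (subset_convexHull ℝ _)
  · exact (hQ.trans hsub).trans (Set.subset_union_left.trans (subset_convexHull ℝ _))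
  · intro z hz
    rw [hHG (show z ∈ tube C₁ from hsub (hQ hz)), hG₂F z hz]
  · exact subset_convexHull ℝ _ (Or.inl (hsub (show toP (ofP x) ∈ Ω by rw [toP_ofP]; exact hxΩ)))

theorem Good.extendsTo {k M : ℕ} {D : Set (Option (Fin k) → ℝ)} (h : Good k M D)
    {x : Option (Fin k) → ℝ} (hx : x ∈ D) : ExtendsTo k M (toP x) := by
  obtain ⟨hDo, hDc, hDR, hDQ, G, hGd, hGb, hGR, hGQ⟩ := h
  have hconv : Convex ℝ ((ofP : (Fin k → ℝ) × ℝ → _) ⁻¹' D) := by
    intro p hp q hq α β hα hβ hαβ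
    show ofP (α • p + β • q) ∈ D
    have : (ofP (α • p + β • q) : Option (Fin k) → ℝ) = α • ofP p + β • ofP q := by
      funext o
      cases o with
      | none => simp [ofP]
      | some j => simp [ofP]
    rw [this]
    exact hDc hp hq hα hβ hαβ
  have hxm : toP x ∈ (ofP : (Fin k → ℝ) × ℝ → _) ⁻¹' D := by
    show ofP (toP x) ∈ D
    rw [ofP_toP]; exact hx
  refine ⟨(ofP : (Fin k → ℝ) × ℝ → _) ⁻¹' D, hDo.preimage continuous_ofP,
    ⟨⟨_, hxm⟩, hconv.isPreconnected⟩, ?_, hxm, fun z => G (ofP z), ⟨?_, ?_⟩, ?_⟩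
  · rintro p ⟨hp1, hp2⟩
    apply hDQ
    intro o
    cases o with
    | none => exact hp2
    | some j => exact hp1 j
  · refine hGd.comp differentiable_ofP.differentiableOn ?_
    intro z hz
    show (fun j => (ofP z j).re) ∈ D
    rw [re_ofP]; exact hz
  · intro z hz1 hz2
    have hmem : ofP z ∈ tube (Q0 k) := by
      intro o
      cases o with
      | none => exact hz2
      | some j => exact hz1 j
    show G (ofP z) = F k M z
    rw [hGQ _ hmem, toP_ofP]
  · intro K hK hKc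
    obtain ⟨C, N, hC⟩ := hGb (ofP '' K) (by rintro _ ⟨x, hx, rfl⟩; exact hK hx) (hKc.image continuous_ofP)
    refine ⟨|C|, N, fun z hz => ?_⟩
    have h1 := hC (ofP z) (by rw [re_ofP]; exact ⟨_, hz, rfl⟩)
    rw [im_ofP] at h1
    refine h1.trans ?_
    have h2 := norm_ofP_le (imP z)
    have h3 := le_abs_self C
    gcongr

/-- a generic point nearby, of smaller weight -/
theorem exists_generic {k : ℕ} {D : Set (Option (Fin k) → ℝ)} (hD : IsOpen D) {x : Option (Fin k) → ℝ}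
    (hx : x ∈ D) : ∃ y ∈ D, wt y ≤ wt x ∧ ∀ l (n : ℕ), y (some l) ≠ -(2 * n) := by
  obtain ⟨r, hr, hball⟩ := Metric.isOpen_iff.mp hD x hx
  -- the bad parameters are countable
  set S : Set ℝ := ⋃ l : Fin k, ⋃ n : ℕ, {t : ℝ | x (some l) - t = -(2 * n)} with hS
  have hSc : S.Countable := by
    refine Set.countable_iUnion fun l => Set.countable_iUnion fun n => ?_
    refine (Set.countable_singleton (x (some l) + 2 * n)).mono ?_
    intro t ht
    simp only [Set.mem_ofPred_eq] at ht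
    simp only [Set.mem_singleton_iff]
    linarith
  obtain ⟨t, ht1, ht2⟩ : ∃ t ∈ Set.Ioo (0 : ℝ) r, t ∉ S := by
    by_contra hcon
    push Not at hcon
    exact (Cardinal.Real.Ioo_countable_iff (x := (0 : ℝ)) (y := r)).not.mpr (by simpa using hr) (hSc.mono hcon)
  refine ⟨fun o => o.elim (x none) (fun l => x (some l) - t), ?_, ?_, ?_⟩
  · apply hball
    rw [mem_ball_iff_norm]
    refine lt_of_le_of_lt ((pi_norm_le_iff_of_nonneg ht1.1.le).mpr fun o => ?_) ht1.2
    cases o with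
    | none => simp [ht1.1.le]
    | some l => simp [abs_of_pos ht1.1]
  · unfold wt
    have : ∑ j : Fin k, ((x (some j) - t) - 1 / 2) ≤ ∑ j : Fin k, (x (some j) - 1 / 2) :=
      Finset.sum_le_sum fun j _ => by linarith [ht1.1]
    show x none + (∑ j : Fin k, ((x (some j) - t) - 1 / 2)) / 2 ≤ _
    linarith
  · intro l n hn
    exact ht2 (Set.mem_iUnion.mpr ⟨l, Set.mem_iUnion.mpr ⟨n, hn⟩⟩)

theorem ExtendsTo.center {k M : ℕ} (hk : 2 ≤ k) {x : (Fin k → ℝ) × ℝ} (h : ExtendsTo k M x) {c : ℝ}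
    (hc : weight x ≤ c) : ExtendsTo k M (fun _ => 1 / 2, c) := by
  obtain ⟨D, hD, hx⟩ := h.good
  obtain ⟨y, hy, hw, hgen⟩ := exists_generic hD.isOpen hx
  obtain ⟨D', hD', hcen⟩ := hD.reach hk hy hgen
  have hwx : wt (ofP x) = weight x := rfl
  have hyc : wt y ≤ c := by linarith
  -- convexity with the far region
  obtain ⟨T, hT⟩ := exists_far_single (cen k c)
  set T' := max T (c + 1) with hT'
  have h1 : cen k T' ∈ D' := by
    apply hD'.subR
    have := hT T' (le_max_left _ _)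
    exact this
  have h2 : c < T' := lt_of_lt_of_le (by linarith) (le_max_right T (c + 1))
  have h3 : cen k c ∈ D' := by
    set a : ℝ := (T' - c) / (T' - wt y) with ha
    have h4 : 0 < T' - wt y := by linarith
    have ha0 : 0 ≤ a := div_nonneg (by linarith) h4.le
    have ha1 : a ≤ 1 := by rw [ha, div_le_one h4]; linarith
    have h5 : cen k c = a • cen k (wt y) + (1 - a) • cen k T' := by
      funext o
      cases o with
      | none =>
        show c = a * wt y + (1 - a) * T'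
        rw [ha]
        field_simp
        ring
      | some l =>
        show (1 / 2 : ℝ) = a * (1 / 2) + (1 - a) * (1 / 2)
        ring
    rw [h5]
    exact hD'.convex hcen h1 ha0 (by linarith) (by ring)
  exact hD'.extendsTo h3

theorem continues_iff {k M : ℕ} : Continues k M ↔ ExtendsTo k M (fun _ => 1 / 2, 1) := by
  constructor
  · rintro ⟨Ω, ⟨h1, h2, h3, h4⟩, G, h5, h6⟩
    exact ⟨Ω, h1, h2, h3, h4, G, h5, h6⟩
  · rintro ⟨Ω, h1, h2, h3, h4, G, h5, h6⟩
    exact ⟨Ω, ⟨h1, h2, h3, h4⟩, G, h5, h6⟩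

end Pool.Agent.MDS
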