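import Pool.Agent.MDS.Flip

set_option autoImplicit false

open Complex Filter Topology
open Pool.Agent.TubeDS

namespace Pool.Agent.MDS

theorem isFundDisc_one : IsFundDisc 1 := Or.inl ⟨by norm_num, squarefree_one⟩

theorem L_one {s : ℂ} (hs : 1 < s.re) : L 1 s = riemannZeta s := by
  unfold L
  rw [← LSeries_one_eq_riemannZeta hs]
  congr 1
  funext n
  simp [kron_one_left]

/-- in the region of absolute convergence, removing the term `d = 1` -/
theorem A_sub_eq {k M : ℕ} {z : Option (Fin k) → ℂ} (hz : ∀ o, 1 < (z o).re) :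
    A k M (toP z).1 (toP z).2 - ∏ j, riemannZeta ((toP z).1 j) = E k M z := by
  obtain ⟨f, hf⟩ : ∃ f : ℕ → ℂ, f = fun d => (kron d M : ℂ) * (d : ℂ) ^ (-(z none)) *
    ∏ j, L d (z (some j)) := ⟨_, rfl⟩
  have hA : Summable (fun d : {d : ℕ // IsFundDisc d} => f d) := by
    rw [hf]
    exact summable_A (s := (toP z).1) (fun j => hz (some j)) (hz none)
  have h1 : {d : ℕ | IsFundDisc d} = {1} ∪ {d : ℕ | IsFundDisc d ∧ 1 < d} := by
    ext d
    simp only [Set.mem_ofPred_eq, Set.mem_union, Set.mem_singleton_iff]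
    constructor
    · intro h
      have := isFundDisc_pos h
      by_cases h2 : d = 1
      · exact Or.inl h2
      · exact Or.inr ⟨h, by omega⟩
    · rintro (rfl | h)
      · exact isFundDisc_one
      · exact h.1
  have hdis : Disjoint ({1} : Set ℕ) {d : ℕ | IsFundDisc d ∧ 1 < d} := by
    rw [Set.disjoint_singleton_left]
    rintro ⟨_, h⟩
    omega
  have hs1 : Summable (f ∘ ((↑) : ({1} : Set ℕ) → ℕ)) := (hasSum_fintype _).summable
  have hs2 : Summable (f ∘ ((↑) : {d : ℕ | IsFundDisc d ∧ 1 < d} → ℕ)) := by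
    have hinj : Function.Injective (fun d : {d : ℕ | IsFundDisc d ∧ 1 < d} =>
        (⟨d.1, d.2.1⟩ : {d : ℕ // IsFundDisc d})) := by
      intro a b h
      simp only [Subtype.mk.injEq] at h
      exact Subtype.ext h
    exact hA.comp_injective hinj
  have h2 : A k M (toP z).1 (toP z).2 = ∑' d : {d : ℕ | IsFundDisc d}, f d := by
    rw [hf]; rfl
  have h3 : ∑' d : ({1} : Set ℕ), f d = ∏ j, riemannZeta ((toP z).1 j) := by
    rw [tsum_singleton]
    simp only [hf, kron_one_left]
    simp only [Int.cast_one, Nat.cast_one, Complex.one_cpow, one_mul]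
    exact Finset.prod_congr rfl fun j _ => L_one (hz (some j))
  have h4 : ∑' d : ({1} ∪ {d : ℕ | IsFundDisc d ∧ 1 < d} : Set ℕ), f d =
      ∑' d : ({1} : Set ℕ), f d + ∑' d : {d : ℕ | IsFundDisc d ∧ 1 < d}, f d :=
    Summable.tsum_union_disjoint hdis hs1 hs2
  have h5 : ∑' d : {d : ℕ | IsFundDisc d}, f d =
      ∑' d : ({1} ∪ {d : ℕ | IsFundDisc d ∧ 1 < d} : Set ℕ), f d := by rw [h1]
  rw [h2, h5, h4, h3, add_sub_cancel_left]
  unfold E
  refine tsum_congr fun d => ?_
  simp only [hf]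
  unfold tm
  congr 1
  refine Finset.prod_congr rfl fun j _ => ?_
  exact ((Lc_spec d.2.1 d.2.2).2.1 _ (hz (some j))).symm

theorem F_eq_Fc {k M : ℕ} {z : Option (Fin k) → ℂ} (hz : ∀ o, 1 < (z o).re) :
    F k M (toP z) = Fc k M z := by
  unfold F Fc pol
  rw [A_sub_eq hz]

/-- the region where every coordinate exceeds `1` -/
def Q0 (k : ℕ) : Set (Option (Fin k) → ℝ) := {x | ∀ o, 1 < x o}

theorem isOpen_Q0 (k : ℕ) : IsOpen (Q0 k) := by
  have : Q0 k = ⋂ o, {x : Option (Fin k) → ℝ | 1 < x o} := by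
    ext x; simp [Q0]
  rw [this]
  exact isOpen_iInter_of_finite fun o => isOpen_lt continuous_const (continuous_apply o)

/-- an open convex set to whose tube the function extends, with polynomial bounds -/
structure Good (k M : ℕ) (D : Set (Option (Fin k) → ℝ)) : Prop where
  isOpen : IsOpen D
  convex : Convex ℝ D
  subR : R0 k ⊆ D
  subQ : Q0 k ⊆ D
  ex : ∃ G : (Option (Fin k) → ℂ) → ℂ, DifferentiableOn ℂ G (tube D) ∧ PolyBdd D G ∧
    Set.EqOn G (Fc k M) (tube (R0 k)) ∧ ∀ z ∈ tube (Q0 k), G z = F k M (toP z)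

/-- a point far out, with prescribed coordinates -/
theorem exists_far {k : ℕ} (i j : Fin k) (x : Option (Fin k) → ℝ) : ∃ T : ℝ, ∀ T' ≥ T,
    (fun o => o.elim T' (fun l => x (some l)) : Option (Fin k) → ℝ) ∈ R0 k ∧
      flp i j (fun o => o.elim T' (fun l => x (some l)) : Option (Fin k) → ℝ) ∈ R0 k := by
  refine ⟨max (1 + ∑ l, (3 / 2 + |x (some l)|) + 1)
    (1 + ∑ l, (3 / 2 + |flp i j x (some l)|) - x (some i) - x (some j) + 2), ?_⟩
  intro T' hT
  have h1 := (le_max_left _ _).trans hT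
  have h2 := (le_max_right _ _).trans hT
  constructor
  · show 1 + ∑ l, (3 / 2 + |x (some l)|) < T'
    linarith
  · show 1 + ∑ l, (3 / 2 + |flp i j x (some l)|) < T' + x (some i) + x (some j) - 1
    linarith

theorem exists_far_single {k : ℕ} (x : Option (Fin k) → ℝ) : ∃ T : ℝ, ∀ T' ≥ T,
    (fun o => o.elim T' (fun l => x (some l)) : Option (Fin k) → ℝ) ∈ R0 k := by
  refine ⟨1 + ∑ l, (3 / 2 + |x (some l)|) + 1, ?_⟩
  intro T' hT
  show 1 + ∑ l, (3 / 2 + |x (some l)|) < T'
  linarith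

theorem odd_nhds {y : ℝ} (hy : ∀ n : ℕ, y ≠ 2 * n + 1) :
    ∃ δ > 0, ∀ u : ℝ, |u - y| < δ → ∀ n : ℕ, u ≠ 2 * n + 1 := by
  have hc : IsClosed {u : ℝ | ∃ n : ℕ, u = 2 * n + 1} := by
    have : {u : ℝ | ∃ n : ℕ, u = 2 * n + 1} = (fun u : ℝ => (u - 1) / 2) ⁻¹' (Set.range ((↑) : ℕ → ℝ)) := by
      ext u
      simp only [Set.mem_ofPred_eq, Set.mem_preimage, Set.mem_range]
      constructor
      · rintro ⟨n, rfl⟩; exact ⟨n, by ring⟩
      · rintro ⟨n, hn⟩; exact ⟨n, by rw [hn]; ring⟩
    rw [this]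
    exact Nat.isClosedEmbedding_coe_real.isClosed_range.preimage (by fun_prop)
  obtain ⟨δ, hδ, h⟩ := Metric.isOpen_iff.mp hc.isOpen_compl y (by
    rintro ⟨n, hn⟩; exact hy n hn)
  refine ⟨δ, hδ, fun u hu n hn => ?_⟩
  exact h (show u ∈ Metric.ball y δ by rw [Metric.mem_ball, Real.dist_eq]; exact hu) ⟨n, hn⟩

/-- the point half way between `x` and its flip -/
noncomputable def mid {k : ℕ} (i j : Fin k) (x : Option (Fin k) → ℝ) : Option (Fin k) → ℝ :=
  (1 / 2 : ℝ) • x + (1 / 2 : ℝ) • flp i j x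

theorem Good.step {k M : ℕ} {D : Set (Option (Fin k) → ℝ)} (h : Good k M D) {i j : Fin k} (hij : i ≠ j)
    {x : Option (Fin k) → ℝ} (hx : x ∈ D) (hi : ∀ n : ℕ, x (some i) ≠ -(2 * n))
    (hj : ∀ n : ℕ, x (some j) ≠ -(2 * n)) : ∃ D', Good k M D' ∧ mid i j x ∈ D' := by
  obtain ⟨hDo, hDc, hDR, hDQ, G, hGd, hGb, hGR, hGQ⟩ := h
  set y := flp i j x with hy
  have hyi : y (some i) = 1 - x (some i) := by simp [hy]
  have hyj : y (some j) = 1 - x (some j) := by simp [hy]
  obtain ⟨δi, hδi, hi'⟩ := odd_nhds (y := y (some i)) (fun n hn => hi n (by rw [hyi] at hn; linarith))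
  obtain ⟨δj, hδj, hj'⟩ := odd_nhds (y := y (some j)) (fun n hn => hj n (by rw [hyj] at hn; linarith))
  set B : Set (Option (Fin k) → ℝ) := {u | |u (some i) - y (some i)| < δi ∧ |u (some j) - y (some j)| < δj} with hB
  have hBo : IsOpen B := by
    rw [hB]
    exact (isOpen_lt (by fun_prop : Continuous fun u : Option (Fin k) → ℝ => |u (some i) - y (some i)|)
      continuous_const).inter (isOpen_lt
      (by fun_prop : Continuous fun u : Option (Fin k) → ℝ => |u (some j) - y (some j)|) continuous_const)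
  have hBc : Convex ℝ B := by
    have h1 : ∀ (o : Option (Fin k)) (c δ : ℝ), Convex ℝ {u : Option (Fin k) → ℝ | |u o - c| < δ} := by
      intro o c δ u hu v hv a b ha hb hab
      have e : (a • u + b • v) o - c = a * (u o - c) + b * (v o - c) := by
        simp only [Pi.add_apply, Pi.smul_apply, smul_eq_mul]
        linear_combination c * hab
      show |(a • u + b • v) o - c| < δ
      rw [e]
      have e1 := abs_add_le (a * (u o - c)) (b * (v o - c))
      rw [abs_mul, abs_mul, abs_of_nonneg ha, abs_of_nonneg hb] at e1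
      have hu' : |u o - c| < δ := hu
      have hv' : |v o - c| < δ := hv
      rcases eq_or_lt_of_le ha with h2 | h2
      · have hb1 : b = 1 := by linarith
        rw [← h2, hb1] at e1 ⊢
        linarith
      · have e2 := mul_lt_mul_of_pos_left hu' h2
        have e3 := mul_le_mul_of_nonneg_left hv'.le hb
        have e4 : a * δ + b * δ = δ := by rw [← add_mul, hab, one_mul]
        linarith
    exact (h1 _ _ _).inter (h1 _ _ _)
  set D'' : Set (Option (Fin k) → ℝ) := flp i j ⁻¹' D ∩ B with hD''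
  have hD''o : IsOpen D'' := (hDo.preimage (continuous_flp i j)).inter hBo
  have hD''c : Convex ℝ D'' := (convex_flp_preimage i j hDc).inter hBc
  have hyD : y ∈ D'' := by
    refine ⟨?_, ?_⟩
    · show flp i j y ∈ D
      rw [hy, flp_flp]; exact hx
    · exact ⟨by simpa using hδi, by simpa using hδj⟩
  set G'' : (Option (Fin k) → ℂ) → ℂ := fun z => X (z (some i)) * X (z (some j)) * G (flp i j z) with hG''
  have hne : ∀ z ∈ tube B, (∀ n : ℕ, z (some i) ≠ 2 * n + 1) ∧ (∀ n : ℕ, z (some j) ≠ 2 * n + 1) := by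
    intro z hz
    refine ⟨fun n hn => hi' _ hz.1 n ?_, fun n hn => hj' _ hz.2 n ?_⟩
    · simp [hn]
    · simp [hn]
  have hG''d : DifferentiableOn ℂ G'' (tube D'') := by
    intro z hz
    obtain ⟨h1, h2⟩ := hne z hz.2
    have h3 : DifferentiableAt ℂ G (flp i j z) := by
      apply (hGd _ _).differentiableAt ((isOpen_tube hDo).mem_nhds _)
      · show (fun o => (flp i j z o).re) ∈ D
        rw [re_flp]; exact hz.1
      · show (fun o => (flp i j z o).re) ∈ D
        rw [re_flp]; exact hz.1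
    apply DifferentiableAt.differentiableWithinAt
    apply DifferentiableAt.mul
    · apply DifferentiableAt.mul
      · exact DifferentiableAt.comp (g := X) (f := fun z : Option (Fin k) → ℂ => z (some i)) z
          (differentiableAt_X h1) (by fun_prop)
      · exact DifferentiableAt.comp (g := X) (f := fun z : Option (Fin k) → ℂ => z (some j)) z
          (differentiableAt_X h2) (by fun_prop)
    · exact h3.comp z (differentiable_flp i j z)
  have hG''b : PolyBdd D'' G'' := by
    apply polyBdd_of_local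
    intro u hu
    obtain ⟨U, hU, C, N, hC, hb⟩ := polyBdd_local hDo hGb (show flp i j u ∈ D from hu.1)
    obtain ⟨U1, hU1, C1, N1, hC1, hb1⟩ := X_local_bound (u (some i)) (hi' _ hu.2.1)
    obtain ⟨U2, hU2, C2, N2, hC2, hb2⟩ := X_local_bound (u (some j)) (hj' _ hu.2.2)
    refine ⟨flp i j ⁻¹' U ∩ ((fun v => v (some i)) ⁻¹' U1 ∩ (fun v => v (some j)) ⁻¹' U2), ?_,
      C1 * C2 * (C * 3 ^ N), N1 + N2 + N, by positivity, ?_⟩
    · refine inter_mem ((continuous_flp i j).continuousAt.preimage_mem_nhds hU) (inter_mem ?_ ?_)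
      · exact (continuous_apply (some i)).continuousAt.preimage_mem_nhds hU1
      · exact (continuous_apply (some j)).continuousAt.preimage_mem_nhds hU2
    · rintro z ⟨hz1, hz2, hz3⟩
      have e1 := hb1 (z (some i)) hz2
      have e2 := hb2 (z (some j)) hz3
      have e3 := hb (flp i j z) (by rw [re_flp]; exact hz1)
      have e4 := norm_im_flp i j z
      have e5 : |(z (some i)).im| ≤ ‖fun o => (z o).im‖ := norm_le_pi_norm (fun o => (z o).im) (some i)
      have e6 : |(z (some j)).im| ≤ ‖fun o => (z o).im‖ := norm_le_pi_norm (fun o => (z o).im) (some j)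
      set T := ‖fun o => (z o).im‖ with hT
      have hT0 : 0 ≤ T := norm_nonneg _
      have e7 : ‖G (flp i j z)‖ ≤ C * 3 ^ N * (1 + T) ^ N := by
        refine e3.trans ?_
        rw [mul_assoc, ← mul_pow]
        gcongr
        linarith
      simp only [hG'']
      rw [norm_mul, norm_mul]
      calc ‖X (z (some i))‖ * ‖X (z (some j))‖ * ‖G (flp i j z)‖
          ≤ (C1 * (1 + T) ^ N1) * (C2 * (1 + T) ^ N2) * (C * 3 ^ N * (1 + T) ^ N) := by
            gcongr
            · exact e1.trans (by gcongr)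
            · exact e2.trans (by gcongr)
        _ = _ := by ring
  -- the overlap
  set U : Set (Option (Fin k) → ℝ) := R0 k ∩ flp i j ⁻¹' (R0 k) ∩ B with hU
  have hUo : IsOpen U := ((isOpen_R0 k).inter ((isOpen_R0 k).preimage (continuous_flp i j))).inter hBo
  have hUne : U.Nonempty := by
    obtain ⟨T, hT⟩ := exists_far i j y
    refine ⟨_, hT T le_rfl, ?_⟩
    exact ⟨by simpa using hδi, by simpa using hδj⟩
  have hUD : U ⊆ D ∩ D'' := fun u hu => ⟨hDR hu.1.1, hDR hu.1.2, hu.2⟩
  have heq : Set.EqOn G G'' (tube U) := by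
    intro z hz
    obtain ⟨h1, h2⟩ := hne z hz.2
    have h3 : flp i j z ∈ tube (R0 k) := by
      show (fun o => (flp i j z o).re) ∈ R0 k
      rw [re_flp]; exact hz.1.2
    rw [hGR (show z ∈ tube (R0 k) from hz.1.1)]
    simp only [hG'']
    rw [hGR h3, Fc_flp hij h1 h2]
  obtain ⟨H, hHd, hHb, hHG, _⟩ := glue hDo hDc hD''o hD''c hGd hGb hG''d hG''b hUo hUne hUD heq
  refine ⟨convexHull ℝ (D ∪ D''), ⟨(hDo.union hD''o).convexHull, convex_convexHull ℝ _, ?_, ?_, H, hHd, hHb,
    ?_, ?_⟩, ?_⟩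
  · exact (hDR.trans Set.subset_union_left).trans (subset_convexHull ℝ _)
  · exact (hDQ.trans Set.subset_union_left).trans (subset_convexHull ℝ _)
  · intro z hz
    rw [hHG (show z ∈ tube D from hDR hz), hGR hz]
  · intro z hz
    rw [hHG (show z ∈ tube D from hDQ hz), hGQ z hz]
  · exact (convex_convexHull ℝ (D ∪ D'')) (subset_convexHull ℝ _ (Or.inl hx))
      (subset_convexHull ℝ _ (Or.inr hyD)) (by norm_num) (by norm_num) (by norm_num)

end Pool.Agent.MDS
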